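import Pool.Agent.Helper89K9.MA.Stm
import Pool.Agent.TH163.AC3.Col

/-!
# Project MA, part 3: memory computed by circuits of constant depth (AND, OR, NOT) from the matrix
and all earlier answers

Statements of the leaves. The tools are in `Pool/Agent/TH163/AC3/{Tree,Sw,Col}.lean` (`HasDT`,
`switching'`, `collapse'`) and `Pool/Agent/H568R2` (`Restr`, `Ex`, `wq`, `rs`, `ov`).
-/

set_option autoImplicit false

namespace Pool.Agent.Helper89K9.MA

open Finset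
open H568R2 (Ex wq)
open Pool.Agent.TH163.AC2 (Alg lenE rightE mavg)
open Pool.Agent.TH163.AC3 (HasDT)
open Pool.Agent.H699R2.OMV (Prog Vec Mat IsProb before)

/-- For given coins and earlier vectors there are `e` arbitrary bits `f M` of side information
about the matrix such that, for each value `y` of the side information, every bit of every cell is
computed from the bits of the matrix and of all earlier answers by a circuit with at most `2 ^ k`
gates (AND, OR of unbounded fan-in, NOT) of depth at most `d`, on all matrices with this side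
information. -/
def DepthMem {n : ℕ} {Ω A : Type} {w : ℕ} (alg : Alg n Ω A w) (d k e : ℕ) : Prop :=
  ∀ (ω : Ω) (h : List (Vec n)), ∃ f : Mat n → Fin e → Bool, ∀ (a : A) (i : Fin w)
    (y : Fin e → Bool), ∃ C : DomAC0.Circuit ((Fin n × Fin n) ⊕ (Fin h.length × Fin n)),
      C.size ≤ 2 ^ k ∧ C.depth ≤ d ∧
        ∀ M : Mat n, f M = y → alg.mem ω h M a i = C.eval (bits h M)

/-- **PM4.** The inputs depend on at most one variable. -/
def S_PM4 : Prop :=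
  ∀ (n K : ℕ) (π : Fin n → Option (Fin K)) (h : List (Vec n)) (v : Vec n), Sep π h v →
    ∀ (X : Mat n) (c : (Fin n × Fin n) ⊕ (Fin h.length × Fin n)),
      HasDT 1 (fun z : Fin n × Fin K → Bool => bits h (pm π X z) c)

open Classical in
/-- **COL.** (Copy of `collapse'` and `node_dt` of `Pool/Agent/TH163/AC3/Col.lean` for circuits whose
inputs are functions with decision trees of depth `1`.) -/
def S_COL : Prop :=
  ∀ (V J : Type) [Fintype V] [DecidableEq V] (C : DomAC0.Circuit J) (inp : J → (V → Bool) → Bool),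
    (∀ j, HasDT 1 (inp j)) → ∀ q : ℝ, 0 ≤ q → q ≤ 1 / 3 → ∀ s d : ℕ, 1 ≤ s → C.depth ≤ d →
    Ex (wq (q ^ d)) (fun ρ : H568R2.Restr V =>
      if ¬ HasDT s (H568R2.rs (fun z => C.eval fun j => inp j z) ρ) then (1 : ℝ) else 0) ≤
      d * C.size * (12 * s * q) ^ (s + 1)

open Classical in
/-- **ROW.** (Copy of `few_free` of `Pool/Agent/TH163/AC2/Stars.lean`.) -/
def S_ROW : Prop :=
  ∀ (n K : ℕ) (r : Fin n) (p : ℝ), 0 ≤ p → p ≤ 1 → ∀ s0 : ℕ,
    Ex (wq p) (fun ρ : H568R2.Restr (Fin n × Fin K) =>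
      if (univ.filter fun c => ρ (r, c) = none).card < s0 then (1 : ℝ) else 0) ≤
      2 ^ s0 * (1 - p / 2) ^ K

open Classical in
/-- **RUN.** Every row has at least `D0` free entries, and so few are read that at least `m'` rows
have a free entry which is not read. -/
def S_RUN : Prop :=
  ∀ (n K w : ℕ) (A : Type) (m : (Fin n × Fin K → Bool) → A → Fin w → Bool)
    (T : Prog A (Fin w → Bool) (Vec n)) (u : Vec n) (ρ : H568R2.Restr (Fin n × Fin K))
    (s D0 m' τ : ℕ), (∀ a i, HasDT s (H568R2.rs (fun z => m z a i) ρ)) →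
    (∀ r, D0 ≤ (univ.filter fun c => ρ (r, c) = none).card) → 1 ≤ D0 →
    D0 * m' + τ * (w * s) ≤ n * D0 →
    (univ.filter fun z : Fin n × Fin K → Bool =>
      T.out (m (H568R2.ov ρ z)) = u + par (H568R2.ov ρ z) ∧
        (T.addrs (m (H568R2.ov ρ z))).length ≤ τ).card * 2 ^ m' ≤ 2 ^ (n * K)

open Classical in
/-- **CORE3.** -/
def S_CORE3 : Prop :=
  ∀ (n K w : ℕ) (A J : Type) [Fintype A] (inp : J → (Fin n × Fin K → Bool) → Bool),
    (∀ j, HasDT 1 (inp j)) → ∀ (d k s D0 m' τ : ℕ) (q : ℝ), 0 ≤ q → q ≤ 1 / 3 → 1 ≤ s → 1 ≤ D0 →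
    D0 * m' + τ * (w * s) ≤ n * D0 →
    ∀ (m : (Fin n × Fin K → Bool) → A → Fin w → Bool) (C : A → Fin w → DomAC0.Circuit J),
    (∀ a i, (C a i).size ≤ 2 ^ k ∧ (C a i).depth ≤ d ∧
      ∀ z, m z a i = (C a i).eval fun j => inp j z) →
    ∀ (T : Prog A (Fin w → Bool) (Vec n)) (u : Vec n),
    ((univ.filter fun z : Fin n × Fin K → Bool => T.out (m z) = u + par z ∧
      (T.addrs (m z)).length ≤ τ).card : ℝ) ≤ 2 ^ (n * K) *
        (1 / 2 ^ m' + n * (2 ^ D0 * (1 - q ^ d / 2) ^ K) +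
          (Fintype.card A * w : ℕ) * (d * 2 ^ k * (12 * s * q) ^ (s + 1)))

/-- **ONE3.** -/
def S_ONE3 : Prop :=
  ∀ (n K w : ℕ) (Ω A : Type) [Fintype A] (alg : Alg n Ω A w) (d k e s D0 m' τ : ℕ) (q : ℝ),
    0 ≤ q → q ≤ 1 / 3 → 1 ≤ s → 1 ≤ D0 → D0 * m' + τ * (w * s) ≤ n * D0 →
    DepthMem alg d k e →
    ∀ (ω : Ω) (h : List (Vec n)) (v : Vec n) (π : Fin n → Option (Fin K)), Sep π h v →
    (nRight alg ω h τ v : ℝ) ≤ 2 ^ (n * n) * (2 ^ e *
      (1 / 2 ^ m' + n * (2 ^ D0 * (1 - q ^ d / 2) ^ K) +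
        (Fintype.card A * w : ℕ) * (d * 2 ^ k * (12 * s * q) ^ (s + 1))))

/-- **NUM3.** The choice of the parameters; `s = e + 3 k + d + 2`, `q = 1 / (24 s)`. -/
def S_NUM3 : Prop :=
  ∀ (n K w N d k e s : ℕ), s = e + 3 * k + d + 2 → n ≤ 2 ^ k → N ≤ 2 ^ k → 1 ≤ w →
    (24 * s) ^ (d + 1) ≤ K → K ≤ n →
    ∃ D0 m' τ : ℕ, 1 ≤ D0 ∧ D0 * m' + τ * (w * s) ≤ n * D0 ∧
      2 ^ e * (1 / 2 ^ m' + n * (2 ^ D0 * (1 - (1 / (24 * s : ℝ)) ^ d / 2) ^ K) +
        N * (d * 2 ^ k * (12 * s * (1 / (24 * s : ℝ))) ^ (s + 1))) ≤ (1 / 2 ^ k : ℝ) / 2 ∧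
      (n * K : ℝ) ≤ (24 * s : ℝ) ^ (d + 1) * w * (τ + 1)

/-- **FIN3.** -/
def S_FIN3 : Prop :=
  ∀ (n K L : ℕ) (vs : Fin n → Vec n) (π : Fin n → Fin n → Option (Fin K)), L ≤ n → K ≤ n →
    (∀ q : Fin n, q.val < L → Sep (π q) (before vs q) (vs q)) →
    ∀ (Ω A : Type) [Fintype Ω] [Fintype A] (w : ℕ) (alg : Alg n Ω A w) (μ : Ω → ℝ), IsProb μ →
    ∀ γ : ℝ, RightOn alg vs μ γ → ∀ d k e : ℕ, 1 ≤ w → n ≤ 2 ^ k → 1 / 2 ^ k ≤ γ →
    Fintype.card A * w ≤ 2 ^ k → (24 * (e + 3 * k + d + 2)) ^ (d + 1) ≤ K → DepthMem alg d k e →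
    γ * (L * (n * K)) ≤ 2 * (24 * (e + 3 * k + d + 2) : ℝ) ^ (d + 1) *
      (w * mavg (fun M => ∑ ω, μ ω * ∑ q, ((alg.probes ω M vs q).length : ℝ)))

end Pool.Agent.Helper89K9.MA
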