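import Pool.Agent.Helper89K9.MA.Fin4
import Pool.Agent.Helper89K9.MA.Asm

/-!
# Project MA, version 2: assembly
-/

set_option autoImplicit false

namespace Pool.Agent.Helper89K9.MA

open Finset
open Pool.Agent.TH163.AC2 (Alg lenE rightE mavg mavg_sum_mul)
open Pool.Agent.H699R2.OMV (Prog Vec Mat IsProb before)
open Pool.Agent.Helper89K9.MC (lam)

theorem asm2 (pt : S_PT) (des : S_PT → S_DES) (rs : Pool.Agent.W905.TM.S_RS)
    (pg1 : S_PG1) (pg2 : S_PG2) (pg3 : S_PG3) (vir : S_VIR) (core1 : S_CORE1) (core2 : S_CORE2)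
    (co2 : S_CO2) (cr4 : S_CR4) (nm4 : S_NM4) (avg : S_AVG) (num1 : S_NUM1) (rp : S_RP) (t n : ℕ) (ht : 2 ≤ t) (hn : 256 ≤ n)
    (hn2 : 2 ^ t ≤ n) :
    ∃ vs : Fin n → Vec n, ∀ (Ω A : Type) [Fintype Ω] (w : ℕ) (alg : Alg n Ω A w) (μ : Ω → ℝ),
      IsProb μ → ∀ γ : ℝ, (alg.Solves μ γ ∨ RightOn alg vs μ γ) →
      (∀ p D s e : ℕ, p.Prime → p ≠ 2 → 1 ≤ s → (2 ^ t * (p * 2 ^ (p - 1)) ^ D) ^ 2 ≤ n →
        32 * e ≤ n → 1 / 2 ^ (n / 16) ≤ γ → PolyMem2 p alg D s e →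
        γ * (n : ℝ) ^ (3 - 1 / (t : ℝ)) ≤
          8 * (8 * t) ^ t * ((p * 2 ^ (p - 1)) ^ D * (s * Real.logb 2 p)) *
            mavg (fun M => ∑ ω, μ ω * ∑ q, ((alg.probes ω M vs q).length : ℝ))) ∧
      (∀ [Fintype A] (d k r e : ℕ), 1 ≤ w → 1 ≤ r → n ≤ 2 ^ k → 1 / 2 ^ k ≤ γ →
        Fintype.card A * w ≤ 2 ^ k →
        (2 ^ t * (24 * (r * (e + 3 * k + d + 2))) ^ (d + 1)) ^ 2 ≤ n → AC0Mem alg d k r e →
        γ * (n : ℝ) ^ (3 - 1 / (t : ℝ)) ≤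
          (8 * t) ^ t * (24 * (r * (e + 3 * k + d + 2))) ^ (d + 1) *
            (w * mavg (fun M => ∑ ω, μ ω * ∑ q, ((alg.probes ω M vs q).length : ℝ)))) ∧
      (∀ [Fintype A] (p d k r e : ℕ), p.Prime → p ≠ 2 → 1 ≤ w → 24 * (k + e + 3) ≤ n →
        1 / 2 ^ k ≤ γ → Fintype.card A * w ≤ 2 ^ k → AC0pMem p alg d k r e →
        γ * (n : ℝ) ^ (5 / 2 - 1 / (2 * t : ℝ)) ≤
          2 ^ 10 * (8 * t) ^ t * ((3 * k + e + 2) * p + r) ^ d *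
            (w * mavg (fun M => ∑ ω, μ ω * ∑ q, ((alg.probes ω M vs q).length : ℝ)))) := by
  obtain ⟨a, ha, han, hr1, hr2, hr3⟩ := rp n t (by omega) hn2
  obtain ⟨hL, vs, π, hsep⟩ := des pt a t n ha (by omega) han
  obtain ⟨L, hLdef⟩ : ∃ L : ℕ, L = ((2 ^ a - 2) / t + 1) ^ t := ⟨_, rfl⟩
  have hLr : ((((2 ^ a - 2) / t + 1 : ℕ) : ℝ)) ^ t = (L : ℝ) := by
    rw [hLdef]
    push_cast
    rfl
  rw [← hLdef] at hL hsep
  rw [hLr] at hr1 hr2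
  have hKr : (((2 ^ a) ^ (t - 1) : ℕ) : ℝ) = (2 ^ a) ^ (t - 1) := by
    push_cast
    rfl
  have hK1 : 1 ≤ (2 ^ a) ^ (t - 1) := Nat.one_le_iff_ne_zero.2 (by positivity)
  have hKn : (2 ^ a) ^ (t - 1) ≤ n :=
    (Nat.pow_le_pow_right (Nat.one_le_iff_ne_zero.2 (by positivity)) (by omega)).trans han
  refine ⟨vs, fun Ω A _ w alg μ hμ γ hR => ?_⟩
  have hR' := rightOn_of_solves alg vs μ γ hR
  refine ⟨?_, ?_, ?_⟩
  · intro p D s e hp hp2 hs hlam he hγ hPM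
    haveI : Fact p.Prime := ⟨hp⟩
    have hγ0 : 0 ≤ γ := le_trans (by positivity) hγ
    have hl1 : 1 ≤ lam p D := FinL.lam_pos hp.one_le D
    have h0 : lam p D ≤ (((2 ^ a) ^ (t - 1) : ℕ) : ℝ) := by
      rw [hKr]
      apply hr3 ht _ hl1
      have : (((2 ^ t * (p * 2 ^ (p - 1)) ^ D) ^ 2 : ℕ) : ℝ) ≤ n := by exact_mod_cast hlam
      push_cast at this
      exact this
    have h1 := fin1v pg1 pg2 pg3 vir core1 avg num1 hn vs π hL hsep p hp2 Ω A w alg μ hμ γ hR' D s e hs h0 he hγ hPM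
    rw [hKr] at h1
    have h2 := mul_le_mul_of_nonneg_left hr1 hγ0
    have h3 : (0 : ℝ) ≤ (8 * t) ^ t / 2 := by positivity
    have h4 := mul_le_mul_of_nonneg_left h1 h3
    unfold Pool.Agent.Helper89K9.MC.lam at h4
    calc γ * (n : ℝ) ^ (3 - 1 / (t : ℝ)) ≤ _ := h2
      _ = (8 * t) ^ t / 2 * (γ * (L * (n * (2 ^ a) ^ (t - 1)))) := by ring
      _ ≤ _ := h4
      _ = _ := by ring
  · intro _ d k r e hw hr hnk hγ hAw hlam hDM
    have hγ0 : 0 ≤ γ := le_trans (by positivity) hγ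
    have h0 : (24 * (r * (e + 3 * k + d + 2))) ^ (d + 1) ≤ (2 ^ a) ^ (t - 1) := by
      have h00 : (((24 * (r * (e + 3 * k + d + 2))) ^ (d + 1) : ℕ) : ℝ) ≤ (2 ^ a) ^ (t - 1) := by
        apply hr3 ht
        · have : 1 ≤ (24 * (r * (e + 3 * k + d + 2))) ^ (d + 1) := by
            have hr0 : 0 < r := hr
            exact Nat.one_le_iff_ne_zero.2 (by positivity)
          exact_mod_cast this
        · exact_mod_cast hlam
      rw [← hKr] at h00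
      exact_mod_cast h00
    have h1 := fin3v pg1 pg2 pg3 co2 cr4 nm4 avg hKn vs π hL hsep Ω A w alg μ hμ γ hR' d k r e
      hw hr hnk hγ hAw h0 hDM
    rw [hKr] at h1
    have h2 := mul_le_mul_of_nonneg_left hr1 hγ0
    have h3 : (0 : ℝ) ≤ (8 * t) ^ t / 2 := by positivity
    have h4 := mul_le_mul_of_nonneg_left h1 h3
    calc γ * (n : ℝ) ^ (3 - 1 / (t : ℝ)) ≤ _ := h2
      _ = (8 * t) ^ t / 2 * (γ * (L * (n * (2 ^ a) ^ (t - 1)))) := by ring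
      _ ≤ _ := h4
      _ = _ := by ring
  · intro _ p d k r e hp hp2 hw hk hγ hAw hCM
    haveI : Fact p.Prime := ⟨hp⟩
    have hγ0 : 0 ≤ γ := le_trans (by positivity) hγ
    have h1 := fin2v rs pg1 pg2 pg3 core2 avg hK1 vs π hL hsep p hp2 Ω A w alg μ hμ γ hR' d k r e
      hw hk hγ hAw hCM
    rw [hKr] at h1
    have h2 := mul_le_mul_of_nonneg_left hr2 hγ0
    have h3 : (0 : ℝ) ≤ (8 * t) ^ t := by positivity
    have h4 := mul_le_mul_of_nonneg_left h1 h3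
    calc γ * (n : ℝ) ^ (5 / 2 - 1 / (2 * t : ℝ)) ≤ _ := h2
      _ = (8 * t) ^ t * (γ * (L * (n * Real.sqrt ((2 ^ a) ^ (t - 1))))) := by ring
      _ ≤ _ := h4
      _ = _ := by ring

end Pool.Agent.Helper89K9.MA
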