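import Pool.Agent.Helper89K9.MA.Stm
import Pool.Agent.Helper89K9.MC.One

/-!
# Project MA: the average over the stream
-/

set_option autoImplicit false

namespace Pool.Agent.Helper89K9.MA

open Finset
open Pool.Agent.TH163.AC2 (Alg lenE rightE mavg mavg_sum_mul)
open Pool.Agent.H699R2.OMV (Prog Vec Mat IsProb before)
open Pool.Agent.Helper89K9.MC.OneL (diff_ge Rv)

theorem avg_ok : S_AVG := by
  classical
  intro n w Ω A _ alg μ hμ vs γ hR Q hQ τ β hβ
  obtain ⟨T, hT⟩ : ∃ T : Fin n → ℝ, T = fun q => ∑ ω, μ ω * lenE alg ω (before vs q) (vs q) :=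
    ⟨_, rfl⟩
  have hTnn : ∀ q, 0 ≤ T q := by
    intro q
    rw [hT]
    apply Finset.sum_nonneg
    intro ω _
    apply mul_nonneg (hμ.nonneg ω)
    unfold Pool.Agent.TH163.AC2.lenE Pool.Agent.TH163.AC2.mavg
    positivity
  have hE : ∀ q : Fin n, γ ≤ ∑ ω, μ ω * rightE alg ω (before vs q) (vs q) := by
    intro q
    have := hR q
    rw [mavg_sum_mul] at this
    exact this
  have hone : ∀ q : Fin n, q.val < Q → (τ + 1 : ℝ) * (γ - β) ≤ T q := by
    intro q hq
    have h1 : ∀ ω, -((τ + 1 : ℝ) * β) ≤ lenE alg ω (before vs q) (vs q) -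
        (τ + 1 : ℝ) * rightE alg ω (before vs q) (vs q) := by
      intro ω
      refine le_trans ?_ (diff_ge alg ω (before vs q) τ (vs q))
      apply neg_le_neg
      apply mul_le_mul_of_nonneg_left _ (by positivity)
      rw [div_le_iff₀ (by positivity), mul_comm]
      refine le_trans (le_of_eq ?_) (hβ ω q hq)
      unfold nRight Pool.Agent.Helper89K9.MC.OneL.Rv
      congr 1
    have h2 := Finset.sum_le_sum (fun ω (_ : ω ∈ (univ : Finset Ω)) =>
      mul_le_mul_of_nonneg_left (h1 ω) (hμ.nonneg ω))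
    rw [← Finset.sum_mul, hμ.sum_one, one_mul] at h2
    have h3 : ∑ ω, μ ω * (lenE alg ω (before vs q) (vs q) -
        (τ + 1 : ℝ) * rightE alg ω (before vs q) (vs q)) = T q -
        (τ + 1 : ℝ) * ∑ ω, μ ω * rightE alg ω (before vs q) (vs q) := by
      rw [hT, Finset.mul_sum, ← Finset.sum_sub_distrib]
      apply Finset.sum_congr rfl
      intro ω _
      ring
    rw [h3] at h2
    have h4 := mul_le_mul_of_nonneg_left (hE q) (show (0 : ℝ) ≤ τ + 1 by positivity)
    linarith
  have htot : mavg (fun M => ∑ ω, μ ω * ∑ q, ((alg.probes ω M vs q).length : ℝ)) =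
      ∑ q, T q := by
    rw [mavg_sum_mul, hT, Finset.sum_comm]
    apply Finset.sum_congr rfl
    intro ω _
    rw [← Finset.mul_sum]
    congr 1
    unfold Pool.Agent.TH163.AC2.lenE Pool.Agent.TH163.AC2.mavg
    rw [Finset.sum_comm, Finset.sum_div]
    rfl
  rw [htot]
  have hsub : ∑ q ∈ univ.filter (fun q : Fin n => q.val < Q), T q ≤ ∑ q, T q := by
    apply Finset.sum_le_sum_of_subset_of_nonneg (Finset.filter_subset _ _)
    intro q _ _
    exact hTnn q
  refine le_trans ?_ hsub
  have hcard : (univ.filter (fun q : Fin n => q.val < Q)).card = Q := by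
    rw [Fin.card_filter_val_lt, min_eq_right hQ]
  have := Finset.card_nsmul_le_sum (univ.filter (fun q : Fin n => q.val < Q))
    (fun q => T q) ((τ + 1 : ℝ) * (γ - β)) (by
      intro q hq
      exact hone q (Finset.mem_filter.1 hq).2)
  rw [hcard, nsmul_eq_mul] at this
  exact this

end Pool.Agent.Helper89K9.MA
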