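import Pool.Agent.Helper89K9.MA.Stm

/-!
# Project MA: the choice of the parameters
-/

set_option autoImplicit false

namespace Pool.Agent.Helper89K9.MA

open Finset
open H746R3.Inv (LD bK Circuit Kind)
open Pool.Agent.TH163.AC2 (Alg lenE rightE mavg)
open Pool.Agent.H699R2.OMV (Prog Vec Mat IsProb before)
open Pool.Agent.Helper89K9.MC (lam)

namespace FinL

lemma lam_pos {p : ℕ} (hp : 1 ≤ p) (d : ℕ) : 1 ≤ lam p d := by
  unfold Pool.Agent.Helper89K9.MC.lam
  apply one_le_pow₀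
  have h1 : (1 : ℝ) ≤ p := by exact_mod_cast hp
  have h2 : (1 : ℝ) ≤ 2 ^ (p - 1) := one_le_pow₀ (by norm_num)
  nlinarith

/-- the last step of both parts -/
lemma last {L τ γ β x c T : ℝ} (hL : 0 ≤ L) (hτ : 0 ≤ τ) (hγ : 0 ≤ γ) (hβ : β ≤ γ / 2)
    (hc : 0 < c) (hx : x ≤ c * (τ + 1)) (hT : L * ((τ + 1) * (γ - β)) ≤ T) :
    γ * (L * x) ≤ 2 * c * T := by
  have h1 : L * ((τ + 1) * (γ / 2)) ≤ T := by
    refine le_trans ?_ hT
    apply mul_le_mul_of_nonneg_left _ hL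
    apply mul_le_mul_of_nonneg_left _ (by linarith)
    linarith
  have h2 : γ * (L * x) ≤ γ * (L * (c * (τ + 1))) := by
    apply mul_le_mul_of_nonneg_left _ hγ
    exact mul_le_mul_of_nonneg_left hx hL
  calc γ * (L * x) ≤ γ * (L * (c * (τ + 1))) := h2
    _ = 2 * c * (L * ((τ + 1) * (γ / 2))) := by ring
    _ ≤ 2 * c * T := mul_le_mul_of_nonneg_left h1 (by linarith)

end FinL

open FinL

theorem fin (des : S_DES) (one1 : S_ONE1) (one2 : S_ONE2) (avg : S_AVG) (num1 : S_NUM1) :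
    S_FIN := by
  intro n a t ha ht hn hn256
  obtain ⟨hL, vs, π, hsep⟩ := des a t n ha ht hn
  obtain ⟨L, hLdef⟩ : ∃ L : ℕ, L = ((2 ^ a - 2) / t + 1) ^ t := ⟨_, rfl⟩
  rw [← hLdef] at hL hsep
  obtain ⟨K, hK⟩ : ∃ K : ℕ, K = (2 ^ a) ^ (t - 1) := ⟨_, rfl⟩
  have hKr : (K : ℝ) = (2 ^ a) ^ (t - 1) := by
    rw [hK]
    push_cast
    rfl
  have hK1 : 1 ≤ K := by
    rw [hK]
    exact Nat.one_le_iff_ne_zero.2 (by positivity)
  have hLr : ((L : ℕ) : ℝ) = (((2 ^ a - 2) / t + 1 : ℕ) : ℝ) ^ t := by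
    rw [hLdef]
    push_cast
    rfl
  refine ⟨vs, fun p hpf hp2 Ω A _ w alg μ hμ γ hR => ⟨?_, ?_⟩⟩
  · intro D s e hs1 hlam he hγ hPM
    have hp : p.Prime := hpf.out
    have hp3 : 3 ≤ p := by
      have := hp.two_le
      omega
    have hl1 := lam_pos hp.one_le D
    have hlg : 0 < Real.logb 2 p :=
      Real.logb_pos (by norm_num) (by exact_mod_cast (by omega : 1 < p))
    have hs' : (0 : ℝ) < s := by exact_mod_cast hs1
    obtain ⟨c, hc⟩ : ∃ c : ℝ, c = 8 * lam p D * (s * Real.logb 2 p) := ⟨_, rfl⟩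
    have hc0 : 0 < c := by rw [hc]; positivity
    obtain ⟨τ, hτ⟩ : ∃ τ : ℕ, τ = ⌊((n : ℝ) * K) / c⌋₊ := ⟨_, rfl⟩
    have h1 : c * τ ≤ (n : ℝ) * K := by
      have := Nat.floor_le (show (0 : ℝ) ≤ ((n : ℝ) * K) / c by positivity)
      rw [← hτ, le_div_iff₀ hc0] at this
      linarith
    have h2 : (n : ℝ) * K ≤ c * (τ + 1) := by
      have := (Nat.lt_floor_add_one (((n : ℝ) * K) / c)).le
      rw [← hτ, div_le_iff₀ hc0] at this
      linarith
    have hγ0 : 0 ≤ γ := le_trans (by positivity) hγ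
    have hnum := num1 n K p D s e τ hn256 hp3 (by rw [hKr]; exact hlam) he (by
      refine le_trans (le_of_eq ?_) h1
      rw [hc]
      ring)
    obtain ⟨β, hβ⟩ : ∃ β : ℝ, β = 2 ^ e * (1 / 2 ^ (n / 8) + ((p : ℝ) ^ s) ^ τ *
      (1 - 1 / lam p D) ^ (n * K / 4)) := ⟨_, rfl⟩
    rw [← hβ] at hnum
    have hav := avg n w Ω A alg μ hμ vs γ hR L hL τ β (by
      intro ω q hq
      rw [hβ]
      subst hK
      exact one1 p hp2 n _ w Ω A alg D s e τ hPM ω (before vs q) (vs q) (π q) (hsep q hq))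
    have := last (Nat.cast_nonneg L) (Nat.cast_nonneg τ) hγ0 (by linarith) hc0 h2 hav
    rw [hKr, hLr, hc] at this
    refine this.trans (le_of_eq ?_)
    ring
  · intro _ d k r hw hk hγ hAw hCM
    have hp : p.Prime := hpf.out
    have hp3 : 3 ≤ p := by
      have := hp.two_le
      omega
    obtain ⟨D', hD'⟩ : ∃ D' : ℕ, D' = ((3 * k + 2) * p + r) ^ d := ⟨_, rfl⟩
    have hD0 : 0 < D' := by
      rw [hD']
      have : 0 < (3 * k + 2) * p := by positivity
      positivity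
    have hD'r : (D' : ℝ) = ((3 * k + 2 : ℝ) * p + r) ^ d := by
      rw [hD']
      push_cast
      rfl
    obtain ⟨c, hc⟩ : ∃ c : ℝ, c = 512 * (w * D') := ⟨_, rfl⟩
    have hw' : (0 : ℝ) < w := by exact_mod_cast hw
    have hDr0 : (0 : ℝ) < D' := by exact_mod_cast hD0
    have hc0 : 0 < c := by rw [hc]; positivity
    obtain ⟨τ, hτ⟩ : ∃ τ : ℕ, τ = ⌊((n : ℝ) * Real.sqrt K) / c⌋₊ := ⟨_, rfl⟩
    have h1 : c * τ ≤ (n : ℝ) * Real.sqrt K := by
      have := Nat.floor_le (show (0 : ℝ) ≤ ((n : ℝ) * Real.sqrt K) / c by positivity)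
      rw [← hτ, le_div_iff₀ hc0] at this
      linarith
    have h2 : (n : ℝ) * Real.sqrt K ≤ c * (τ + 1) := by
      have := (Nat.lt_floor_add_one (((n : ℝ) * Real.sqrt K) / c)).le
      rw [← hτ, div_le_iff₀ hc0] at this
      linarith
    have hγ0 : 0 ≤ γ := le_trans (by positivity) hγ
    have h3 : (512 * (τ * (w * D'))) ^ 2 ≤ n ^ 2 * K := by
      have h4 : (c * τ) ^ 2 ≤ ((n : ℝ) * Real.sqrt K) ^ 2 :=
        pow_le_pow_left₀ (by positivity) h1 2
      rw [mul_pow (n : ℝ), Real.sq_sqrt (Nat.cast_nonneg K)] at h4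
      have h5 : (((512 * (τ * (w * D'))) ^ 2 : ℕ) : ℝ) ≤ ((n ^ 2 * K : ℕ) : ℝ) := by
        push_cast
        refine le_trans (le_of_eq ?_) h4
        rw [hc]
        ring
      exact_mod_cast h5
    obtain ⟨β, hβ⟩ : ∃ β : ℝ, β = 1 / 2 ^ (n / 24) + (Fintype.card A * w : ℕ) * 2 ^ k /
      (p : ℝ) ^ (3 * k + 2) := ⟨_, rfl⟩
    have hβ2 : β ≤ γ / 2 := by
      have h6 : (1 : ℝ) / 2 ^ (n / 24) ≤ 1 / 2 ^ (k + 3) := by
        apply one_div_le_one_div_of_le (by positivity)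
        exact pow_le_pow_right₀ (by norm_num) (by omega)
      have h7 : ((Fintype.card A * w : ℕ) : ℝ) * 2 ^ k / (p : ℝ) ^ (3 * k + 2) ≤
          1 / (8 * 2 ^ k) := by
        have h8 : ((Fintype.card A * w : ℕ) : ℝ) ≤ 2 ^ k := by exact_mod_cast hAw
        have h9 : (8 : ℝ) ^ (k + 1) ≤ (p : ℝ) ^ (3 * k + 2) := by
          calc (8 : ℝ) ^ (k + 1) = 8 * 8 ^ k := by ring
            _ ≤ 9 * 27 ^ k := by
              have : (8 : ℝ) ^ k ≤ 27 ^ k := pow_le_pow_left₀ (by norm_num) (by norm_num) k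
              have h0 : (0 : ℝ) ≤ 8 ^ k := by positivity
              linarith
            _ = (3 : ℝ) ^ (3 * k + 2) := by
              rw [pow_add, pow_mul]
              norm_num
              ring
            _ ≤ (p : ℝ) ^ (3 * k + 2) := by
              apply pow_le_pow_left₀ (by norm_num)
              exact_mod_cast hp3
        have hp0 : (0 : ℝ) < (p : ℝ) ^ (3 * k + 2) := by
          have : 0 < p := hp.pos
          positivity
        rw [div_le_div_iff₀ hp0 (by positivity)]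
        have h10 : (8 : ℝ) ^ (k + 1) = 8 * (2 ^ k * 2 ^ k * 2 ^ k) := by
          rw [pow_succ, show (8 : ℝ) = 2 * 2 * 2 by norm_num, mul_pow, mul_pow]
          ring
        have h11 : ((Fintype.card A * w : ℕ) : ℝ) * 2 ^ k * (8 * 2 ^ k) ≤
            2 ^ k * 2 ^ k * (8 * 2 ^ k) := by
          apply mul_le_mul_of_nonneg_right _ (by positivity)
          exact mul_le_mul_of_nonneg_right h8 (by positivity)
        calc ((Fintype.card A * w : ℕ) : ℝ) * 2 ^ k * (8 * 2 ^ k) ≤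
            2 ^ k * 2 ^ k * (8 * 2 ^ k) := h11
          _ = 8 ^ (k + 1) := by rw [h10]; ring
          _ ≤ 1 * (p : ℝ) ^ (3 * k + 2) := by linarith
      have h12 : (1 : ℝ) / 2 ^ (k + 3) = 1 / 2 ^ k / 8 := by
        rw [pow_add]
        field_simp
        norm_num
      have h13 : (1 : ℝ) / (8 * 2 ^ k) = 1 / 2 ^ k / 8 := by
        field_simp
      have h14 : (0 : ℝ) ≤ 1 / 2 ^ k := by positivity
      rw [hβ]
      rw [h12] at h6
      rw [h13] at h7
      linarith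
    have hav := avg n w Ω A alg μ hμ vs γ hR L hL τ β (by
      intro ω q hq
      rw [hβ]
      subst hK
      exact one2 p hp2 n _ w Ω A alg d k r (3 * k + 2) τ (by omega) hK1 hCM
        (by rw [← hD']; exact h3) ω (before vs q) (vs q) (π q) (hsep q hq))
    have := last (Nat.cast_nonneg L) (Nat.cast_nonneg τ) hγ0 hβ2 hc0 h2 hav
    rw [hKr, hLr, hc, hD'r] at this
    refine this.trans (le_of_eq ?_)
    ring

end Pool.Agent.Helper89K9.MA
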