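import Pool.Agent.Helper89K9.MA.Stm

/-!
# Project MA: the choice of the parameters
-/

set_option autoImplicit false

namespace Pool.Agent.Helper89K9.MA

open Finset
open H746R3.Inv (LD bK Circuit Kind)
open Pool.Agent.TH163.AC2 (Alg lenE rightE mavg)
open Pool.Agent.H699R2.OMV (Prog Vec Mat IsProb before)
open Pool.Agent.Helper89K9.MC (lam)

namespace FinL

lemma lam_pos {p : ℕ} (hp : 1 ≤ p) (d : ℕ) : 1 ≤ lam p d := by
  unfold Pool.Agent.Helper89K9.MC.lam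
  apply one_le_pow₀
  have h1 : (1 : ℝ) ≤ p := by exact_mod_cast hp
  have h2 : (1 : ℝ) ≤ 2 ^ (p - 1) := one_le_pow₀ (by norm_num)
  nlinarith

/-- the last step of both parts -/
lemma last {L τ γ β x c T : ℝ} (hL : 0 ≤ L) (hτ : 0 ≤ τ) (hγ : 0 ≤ γ) (hβ : β ≤ γ / 2)
    (hc : 0 < c) (hx : x ≤ c * (τ + 1)) (hT : L * ((τ + 1) * (γ - β)) ≤ T) :
    γ * (L * x) ≤ 2 * c * T := by
  have h1 : L * ((τ + 1) * (γ / 2)) ≤ T := by
    refine le_trans ?_ hT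
    apply mul_le_mul_of_nonneg_left _ hL
    apply mul_le_mul_of_nonneg_left _ (by linarith)
    linarith
  have h2 : γ * (L * x) ≤ γ * (L * (c * (τ + 1))) := by
    apply mul_le_mul_of_nonneg_left _ hγ
    exact mul_le_mul_of_nonneg_left hx hL
  calc γ * (L * x) ≤ γ * (L * (c * (τ + 1))) := h2
    _ = 2 * c * (L * ((τ + 1) * (γ / 2))) := by ring
    _ ≤ 2 * c * T := mul_le_mul_of_nonneg_left h1 (by linarith)

end FinL

open FinL

theorem fin1 (one1 : S_ONE1) (avg : S_AVG) (num1 : S_NUM1) {n K L : ℕ} (hn256 : 256 ≤ n)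
    (vs : Fin n → Vec n) (π : Fin n → Fin n → Option (Fin K)) (hL : L ≤ n)
    (hsep : ∀ q : Fin n, q.val < L → Sep (π q) (before vs q) (vs q))
    (p : ℕ) [hpf : Fact p.Prime] (hp2 : p ≠ 2) (Ω A : Type) [Fintype Ω] (w : ℕ) (alg : Alg n Ω A w)
    (μ : Ω → ℝ) (hμ : IsProb μ) (γ : ℝ) (hR : RightOn alg vs μ γ) :
    ∀ D s e : ℕ, 1 ≤ s → lam p D ≤ K → 32 * e ≤ n → 1 / 2 ^ (n / 16) ≤ γ →
      PolyMem p alg D s e →
      γ * (L * (n * K)) ≤ 16 * lam p D * (s * Real.logb 2 p) *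
          mavg (fun M => ∑ ω, μ ω * ∑ q, ((alg.probes ω M vs q).length : ℝ)) := by
  intro D s e hs1 hlam he hγ hPM
  have hp : p.Prime := hpf.out
  have hp3 : 3 ≤ p := by
    have := hp.two_le
    omega
  have hl1 := lam_pos hp.one_le D
  have hlg : 0 < Real.logb 2 p :=
    Real.logb_pos (by norm_num) (by exact_mod_cast (by omega : 1 < p))
  have hs' : (0 : ℝ) < s := by exact_mod_cast hs1
  obtain ⟨c, hc⟩ : ∃ c : ℝ, c = 8 * lam p D * (s * Real.logb 2 p) := ⟨_, rfl⟩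
  have hc0 : 0 < c := by rw [hc]; positivity
  obtain ⟨τ, hτ⟩ : ∃ τ : ℕ, τ = ⌊((n : ℝ) * K) / c⌋₊ := ⟨_, rfl⟩
  have h1 : c * τ ≤ (n : ℝ) * K := by
    have := Nat.floor_le (show (0 : ℝ) ≤ ((n : ℝ) * K) / c by positivity)
    rw [← hτ, le_div_iff₀ hc0] at this
    linarith
  have h2 : (n : ℝ) * K ≤ c * (τ + 1) := by
    have := (Nat.lt_floor_add_one (((n : ℝ) * K) / c)).le
    rw [← hτ, div_le_iff₀ hc0] at this
    linarith
  have hγ0 : 0 ≤ γ := le_trans (by positivity) hγ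
  have hnum := num1 n K p D s e τ hn256 hp3 hlam he (by
    refine le_trans (le_of_eq ?_) h1
    rw [hc]
    ring)
  obtain ⟨β, hβ⟩ : ∃ β : ℝ, β = 2 ^ e * (1 / 2 ^ (n / 8) + ((p : ℝ) ^ s) ^ τ *
    (1 - 1 / lam p D) ^ (n * K / 4)) := ⟨_, rfl⟩
  rw [← hβ] at hnum
  have hav := avg n w Ω A alg μ hμ vs γ hR L hL τ β (by
    intro ω q hq
    rw [hβ]
    exact one1 p hp2 n _ w Ω A alg D s e τ hPM ω (before vs q) (vs q) (π q) (hsep q hq))
  have := last (Nat.cast_nonneg L) (Nat.cast_nonneg τ) hγ0 (by linarith) hc0 h2 hav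
  rw [hc] at this
  refine this.trans (le_of_eq ?_)
  ring

theorem fin2 (one2 : S_ONE2) (avg : S_AVG) {n K L : ℕ} (hK1 : 1 ≤ K)
    (vs : Fin n → Vec n) (π : Fin n → Fin n → Option (Fin K)) (hL : L ≤ n)
    (hsep : ∀ q : Fin n, q.val < L → Sep (π q) (before vs q) (vs q))
    (p : ℕ) [hpf : Fact p.Prime] (hp2 : p ≠ 2) (Ω A : Type) [Fintype Ω] (w : ℕ) (alg : Alg n Ω A w)
    (μ : Ω → ℝ) (hμ : IsProb μ) (γ : ℝ) (hR : RightOn alg vs μ γ) :
    ∀ [Fintype A] (d k r : ℕ), 1 ≤ w → 24 * (k + 3) ≤ n → 1 / 2 ^ k ≤ γ →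
      Fintype.card A * w ≤ 2 ^ k → CircMem p alg d k r →
      γ * (L * (n * Real.sqrt K)) ≤ 2 ^ 10 * ((3 * k + 2 : ℝ) * p + r) ^ d *
          (w * mavg (fun M => ∑ ω, μ ω * ∑ q, ((alg.probes ω M vs q).length : ℝ))) := by
  intro _ d k r hw hk hγ hAw hCM
  have hp : p.Prime := hpf.out
  have hp3 : 3 ≤ p := by
    have := hp.two_le
    omega
  obtain ⟨D', hD'⟩ : ∃ D' : ℕ, D' = ((3 * k + 2) * p + r) ^ d := ⟨_, rfl⟩
  have hD0 : 0 < D' := by
    rw [hD']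
    have : 0 < (3 * k + 2) * p := by positivity
    positivity
  have hD'r : (D' : ℝ) = ((3 * k + 2 : ℝ) * p + r) ^ d := by
    rw [hD']
    push_cast
    rfl
  obtain ⟨c, hc⟩ : ∃ c : ℝ, c = 512 * (w * D') := ⟨_, rfl⟩
  have hw' : (0 : ℝ) < w := by exact_mod_cast hw
  have hDr0 : (0 : ℝ) < D' := by exact_mod_cast hD0
  have hc0 : 0 < c := by rw [hc]; positivity
  obtain ⟨τ, hτ⟩ : ∃ τ : ℕ, τ = ⌊((n : ℝ) * Real.sqrt K) / c⌋₊ := ⟨_, rfl⟩
  have h1 : c * τ ≤ (n : ℝ) * Real.sqrt K := by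
    have := Nat.floor_le (show (0 : ℝ) ≤ ((n : ℝ) * Real.sqrt K) / c by positivity)
    rw [← hτ, le_div_iff₀ hc0] at this
    linarith
  have h2 : (n : ℝ) * Real.sqrt K ≤ c * (τ + 1) := by
    have := (Nat.lt_floor_add_one (((n : ℝ) * Real.sqrt K) / c)).le
    rw [← hτ, div_le_iff₀ hc0] at this
    linarith
  have hγ0 : 0 ≤ γ := le_trans (by positivity) hγ
  have h3 : (512 * (τ * (w * D'))) ^ 2 ≤ n ^ 2 * K := by
    have h4 : (c * τ) ^ 2 ≤ ((n : ℝ) * Real.sqrt K) ^ 2 :=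
      pow_le_pow_left₀ (by positivity) h1 2
    rw [mul_pow (n : ℝ), Real.sq_sqrt (Nat.cast_nonneg K)] at h4
    have h5 : (((512 * (τ * (w * D'))) ^ 2 : ℕ) : ℝ) ≤ ((n ^ 2 * K : ℕ) : ℝ) := by
      push_cast
      refine le_trans (le_of_eq ?_) h4
      rw [hc]
      ring
    exact_mod_cast h5
  obtain ⟨β, hβ⟩ : ∃ β : ℝ, β = 1 / 2 ^ (n / 24) + (Fintype.card A * w : ℕ) * 2 ^ k /
    (p : ℝ) ^ (3 * k + 2) := ⟨_, rfl⟩
  have hβ2 : β ≤ γ / 2 := by
    have h6 : (1 : ℝ) / 2 ^ (n / 24) ≤ 1 / 2 ^ (k + 3) := by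
      apply one_div_le_one_div_of_le (by positivity)
      exact pow_le_pow_right₀ (by norm_num) (by omega)
    have h7 : ((Fintype.card A * w : ℕ) : ℝ) * 2 ^ k / (p : ℝ) ^ (3 * k + 2) ≤
        1 / (8 * 2 ^ k) := by
      have h8 : ((Fintype.card A * w : ℕ) : ℝ) ≤ 2 ^ k := by exact_mod_cast hAw
      have h9 : (8 : ℝ) ^ (k + 1) ≤ (p : ℝ) ^ (3 * k + 2) := by
        calc (8 : ℝ) ^ (k + 1) = 8 * 8 ^ k := by ring
          _ ≤ 9 * 27 ^ k := by
            have : (8 : ℝ) ^ k ≤ 27 ^ k := pow_le_pow_left₀ (by norm_num) (by norm_num) k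
            have h0 : (0 : ℝ) ≤ 8 ^ k := by positivity
            linarith
          _ = (3 : ℝ) ^ (3 * k + 2) := by
            rw [pow_add, pow_mul]
            norm_num
            ring
          _ ≤ (p : ℝ) ^ (3 * k + 2) := by
            apply pow_le_pow_left₀ (by norm_num)
            exact_mod_cast hp3
      have hp0 : (0 : ℝ) < (p : ℝ) ^ (3 * k + 2) := by
        have : 0 < p := hp.pos
        positivity
      rw [div_le_div_iff₀ hp0 (by positivity)]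
      have h10 : (8 : ℝ) ^ (k + 1) = 8 * (2 ^ k * 2 ^ k * 2 ^ k) := by
        rw [pow_succ, show (8 : ℝ) = 2 * 2 * 2 by norm_num, mul_pow, mul_pow]
        ring
      have h11 : ((Fintype.card A * w : ℕ) : ℝ) * 2 ^ k * (8 * 2 ^ k) ≤
          2 ^ k * 2 ^ k * (8 * 2 ^ k) := by
        apply mul_le_mul_of_nonneg_right _ (by positivity)
        exact mul_le_mul_of_nonneg_right h8 (by positivity)
      calc ((Fintype.card A * w : ℕ) : ℝ) * 2 ^ k * (8 * 2 ^ k) ≤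
          2 ^ k * 2 ^ k * (8 * 2 ^ k) := h11
        _ = 8 ^ (k + 1) := by rw [h10]; ring
        _ ≤ 1 * (p : ℝ) ^ (3 * k + 2) := by linarith
    have h12 : (1 : ℝ) / 2 ^ (k + 3) = 1 / 2 ^ k / 8 := by
      rw [pow_add]
      field_simp
      norm_num
    have h13 : (1 : ℝ) / (8 * 2 ^ k) = 1 / 2 ^ k / 8 := by
      field_simp
    have h14 : (0 : ℝ) ≤ 1 / 2 ^ k := by positivity
    rw [hβ]
    rw [h12] at h6
    rw [h13] at h7
    linarith
  have hav := avg n w Ω A alg μ hμ vs γ hR L hL τ β (by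
    intro ω q hq
    rw [hβ]
    exact one2 p hp2 n _ w Ω A alg d k r (3 * k + 2) τ (by omega) hK1 hCM
      (by rw [← hD']; exact h3) ω (before vs q) (vs q) (π q) (hsep q hq))
  have := last (Nat.cast_nonneg L) (Nat.cast_nonneg τ) hγ0 hβ2 hc0 h2 hav
  rw [hc, hD'r] at this
  refine this.trans (le_of_eq ?_)
  ring

end Pool.Agent.Helper89K9.MA
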