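import Pool.Agent.Helper89K9.MA.One4

/-!
# Project MA, version 2: the choice of the parameters
-/

set_option autoImplicit false

namespace Pool.Agent.Helper89K9.MA

open Finset
open H746R3.Inv (LD bK Circuit Kind)
open Pool.Agent.W905.TM (Acc S_RS)
open Pool.Agent.TH163.AC2 (Alg lenE rightE mavg)
open Pool.Agent.H699R2.OMV (Prog Vec Mat IsProb before)
open Pool.Agent.Helper89K9.MC (lam)

open OneL FinL

theorem fin1v (pg1 : S_PG1) (pg2 : S_PG2) (pg3 : S_PG3) (vir : S_VIR) (core1 : S_CORE1)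
    (avg : S_AVG) (num1 : S_NUM1) {n K L : ℕ} (hn256 : 256 ≤ n)
    (vs : Fin n → Vec n) (π : Fin n → Fin n → Option (Fin K)) (hL : L ≤ n)
    (hsep : ∀ q : Fin n, q.val < L → Sep (π q) (before vs q) (vs q))
    (p : ℕ) [hpf : Fact p.Prime] (hp2 : p ≠ 2) (Ω A : Type) [Fintype Ω] (w : ℕ) (alg : Alg n Ω A w)
    (μ : Ω → ℝ) (hμ : IsProb μ) (γ : ℝ) (hR : RightOn alg vs μ γ) :
    ∀ D s e : ℕ, 1 ≤ s → lam p D ≤ K → 32 * e ≤ n → 1 / 2 ^ (n / 16) ≤ γ →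
      PolyMem2 p alg D s e →
      γ * (L * (n * K)) ≤ 16 * lam p D * (s * Real.logb 2 p) *
          mavg (fun M => ∑ ω, μ ω * ∑ q, ((alg.probes ω M vs q).length : ℝ)) := by
  intro D s e hs1 hlam he hγ hPM
  have hp : p.Prime := hpf.out
  have hp3 : 3 ≤ p := by
    have := hp.two_le
    omega
  have hl1 := lam_pos hp.one_le D
  have hlg : 0 < Real.logb 2 p :=
    Real.logb_pos (by norm_num) (by exact_mod_cast (by omega : 1 < p))
  have hs' : (0 : ℝ) < s := by exact_mod_cast hs1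
  obtain ⟨c, hc⟩ : ∃ c : ℝ, c = 8 * lam p D * (s * Real.logb 2 p) := ⟨_, rfl⟩
  have hc0 : 0 < c := by rw [hc]; positivity
  obtain ⟨τ, hτ⟩ : ∃ τ : ℕ, τ = ⌊((n : ℝ) * K) / c⌋₊ := ⟨_, rfl⟩
  have h1 : c * τ ≤ (n : ℝ) * K := by
    have := Nat.floor_le (show (0 : ℝ) ≤ ((n : ℝ) * K) / c by positivity)
    rw [← hτ, le_div_iff₀ hc0] at this
    linarith
  have h2 : (n : ℝ) * K ≤ c * (τ + 1) := by
    have := (Nat.lt_floor_add_one (((n : ℝ) * K) / c)).le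
    rw [← hτ, div_le_iff₀ hc0] at this
    linarith
  have hγ0 : 0 ≤ γ := le_trans (by positivity) hγ
  have hnum := num1 n K p D s e τ hn256 hp3 hlam he (by
    refine le_trans (le_of_eq ?_) h1
    rw [hc]
    ring)
  obtain ⟨β, hβ⟩ : ∃ β : ℝ, β = 2 ^ e * (1 / 2 ^ (n / 8) + ((p : ℝ) ^ s) ^ τ *
    (1 - 1 / lam p D) ^ (n * K / 4)) := ⟨_, rfl⟩
  rw [← hβ] at hnum
  have hav := avg n w Ω A alg μ hμ vs γ hR L hL τ β (by
    intro ω q hq
    rw [hβ]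
    exact one1v pg1 pg2 pg3 vir core1 p hp2 n _ w Ω A alg D s e τ hPM ω (before vs q) (vs q) (π q) (hsep q hq))
  have := last (Nat.cast_nonneg L) (Nat.cast_nonneg τ) hγ0 (by linarith) hc0 h2 hav
  rw [hc] at this
  refine this.trans (le_of_eq ?_)
  ring

theorem fin2v (rs : S_RS) (pg1 : S_PG1) (pg2 : S_PG2) (pg3 : S_PG3) (core2 : S_CORE2)
    (avg : S_AVG) {n K L : ℕ} (hK1 : 1 ≤ K)
    (vs : Fin n → Vec n) (π : Fin n → Fin n → Option (Fin K)) (hL : L ≤ n)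
    (hsep : ∀ q : Fin n, q.val < L → Sep (π q) (before vs q) (vs q))
    (p : ℕ) [hpf : Fact p.Prime] (hp2 : p ≠ 2) (Ω A : Type) [Fintype Ω] (w : ℕ) (alg : Alg n Ω A w)
    (μ : Ω → ℝ) (hμ : IsProb μ) (γ : ℝ) (hR : RightOn alg vs μ γ) :
    ∀ [Fintype A] (d k r e : ℕ), 1 ≤ w → 24 * (k + e + 3) ≤ n → 1 / 2 ^ k ≤ γ →
      Fintype.card A * w ≤ 2 ^ k → AC0pMem p alg d k r e →
      γ * (L * (n * Real.sqrt K)) ≤ 2 ^ 10 * ((3 * k + e + 2 : ℝ) * p + r) ^ d *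
          (w * mavg (fun M => ∑ ω, μ ω * ∑ q, ((alg.probes ω M vs q).length : ℝ))) := by
  intro _ d k r e hw hk hγ hAw hCM
  have hp : p.Prime := hpf.out
  have hp3 : 3 ≤ p := by
    have := hp.two_le
    omega
  obtain ⟨D', hD'⟩ : ∃ D' : ℕ, D' = ((3 * k + e + 2) * p + r) ^ d := ⟨_, rfl⟩
  have hD0 : 0 < D' := by
    rw [hD']
    have : 0 < (3 * k + e + 2) * p := by positivity
    positivity
  have hD'r : (D' : ℝ) = ((3 * k + e + 2 : ℝ) * p + r) ^ d := by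
    rw [hD']
    push_cast
    rfl
  obtain ⟨c, hc⟩ : ∃ c : ℝ, c = 512 * (w * D') := ⟨_, rfl⟩
  have hw' : (0 : ℝ) < w := by exact_mod_cast hw
  have hDr0 : (0 : ℝ) < D' := by exact_mod_cast hD0
  have hc0 : 0 < c := by rw [hc]; positivity
  obtain ⟨τ, hτ⟩ : ∃ τ : ℕ, τ = ⌊((n : ℝ) * Real.sqrt K) / c⌋₊ := ⟨_, rfl⟩
  have h1 : c * τ ≤ (n : ℝ) * Real.sqrt K := by
    have := Nat.floor_le (show (0 : ℝ) ≤ ((n : ℝ) * Real.sqrt K) / c by positivity)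
    rw [← hτ, le_div_iff₀ hc0] at this
    linarith
  have h2 : (n : ℝ) * Real.sqrt K ≤ c * (τ + 1) := by
    have := (Nat.lt_floor_add_one (((n : ℝ) * Real.sqrt K) / c)).le
    rw [← hτ, div_le_iff₀ hc0] at this
    linarith
  have hγ0 : 0 ≤ γ := le_trans (by positivity) hγ
  have h3 : (512 * (τ * (w * D'))) ^ 2 ≤ n ^ 2 * K := by
    have h4 : (c * τ) ^ 2 ≤ ((n : ℝ) * Real.sqrt K) ^ 2 :=
      pow_le_pow_left₀ (by positivity) h1 2
    rw [mul_pow (n : ℝ), Real.sq_sqrt (Nat.cast_nonneg K)] at h4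
    have h5 : (((512 * (τ * (w * D'))) ^ 2 : ℕ) : ℝ) ≤ ((n ^ 2 * K : ℕ) : ℝ) := by
      push_cast
      refine le_trans (le_of_eq ?_) h4
      rw [hc]
      ring
    exact_mod_cast h5
  obtain ⟨β, hβ⟩ : ∃ β : ℝ, β = 2 ^ e * (1 / 2 ^ (n / 24) + (Fintype.card A * w : ℕ) * 2 ^ k /
    (p : ℝ) ^ (3 * k + e + 2)) := ⟨_, rfl⟩
  have hβ2 : β ≤ γ / 2 := by
    have h6 : (1 : ℝ) / 2 ^ (n / 24) ≤ 1 / 2 ^ (k + e + 3) := by
      apply one_div_le_one_div_of_le (by positivity)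
      exact pow_le_pow_right₀ (by norm_num) (by omega)
    have h7 : ((Fintype.card A * w : ℕ) : ℝ) * 2 ^ k / (p : ℝ) ^ (3 * k + e + 2) ≤
        1 / (8 * 2 ^ k * 2 ^ e) := by
      have h8 : ((Fintype.card A * w : ℕ) : ℝ) ≤ 2 ^ k := by exact_mod_cast hAw
      have h9 : (8 : ℝ) ^ (k + 1) * 2 ^ e ≤ (p : ℝ) ^ (3 * k + e + 2) := by
        calc (8 : ℝ) ^ (k + 1) * 2 ^ e = 8 * 8 ^ k * 2 ^ e := by ring
          _ ≤ 9 * 27 ^ k * 3 ^ e := by
            apply mul_le_mul _ _ (by positivity) (by positivity)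
            · have : (8 : ℝ) ^ k ≤ 27 ^ k := pow_le_pow_left₀ (by norm_num) (by norm_num) k
              have h0 : (0 : ℝ) ≤ 8 ^ k := by positivity
              linarith
            · exact pow_le_pow_left₀ (by norm_num) (by norm_num) e
          _ = (3 : ℝ) ^ (3 * k + e + 2) := by
            rw [pow_add, pow_add, pow_mul]
            norm_num
            ring
          _ ≤ (p : ℝ) ^ (3 * k + e + 2) := by
            apply pow_le_pow_left₀ (by norm_num)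
            exact_mod_cast hp3
      have hp0 : (0 : ℝ) < (p : ℝ) ^ (3 * k + e + 2) := by
        have : 0 < p := hp.pos
        positivity
      rw [div_le_div_iff₀ hp0 (by positivity)]
      have h10 : (8 : ℝ) ^ (k + 1) = 8 * (2 ^ k * 2 ^ k * 2 ^ k) := by
        rw [pow_succ, show (8 : ℝ) = 2 * 2 * 2 by norm_num, mul_pow, mul_pow]
        ring
      have h11 : ((Fintype.card A * w : ℕ) : ℝ) * 2 ^ k * (8 * 2 ^ k * 2 ^ e) ≤
          2 ^ k * 2 ^ k * (8 * 2 ^ k * 2 ^ e) := by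
        apply mul_le_mul_of_nonneg_right _ (by positivity)
        exact mul_le_mul_of_nonneg_right h8 (by positivity)
      calc ((Fintype.card A * w : ℕ) : ℝ) * 2 ^ k * (8 * 2 ^ k * 2 ^ e) ≤
          2 ^ k * 2 ^ k * (8 * 2 ^ k * 2 ^ e) := h11
        _ = 8 ^ (k + 1) * 2 ^ e := by rw [h10]; ring
        _ ≤ 1 * (p : ℝ) ^ (3 * k + e + 2) := by linarith
    have h12 : (2 : ℝ) ^ e * (1 / 2 ^ (k + e + 3)) = 1 / 2 ^ k / 8 := by
      rw [pow_add, pow_add]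
      field_simp
      norm_num
    have h13 : (2 : ℝ) ^ e * (1 / (8 * 2 ^ k * 2 ^ e)) = 1 / 2 ^ k / 8 := by
      field_simp
    have h14 : (0 : ℝ) ≤ 1 / 2 ^ k := by positivity
    have h15 : (0 : ℝ) ≤ 2 ^ e := by positivity
    have h16 := mul_le_mul_of_nonneg_left (add_le_add h6 h7) h15
    rw [mul_add (2 ^ e) (1 / 2 ^ (k + e + 3) : ℝ), h12, h13] at h16
    rw [hβ]
    linarith
  have hav := avg n w Ω A alg μ hμ vs γ hR L hL τ β (by
    intro ω q hq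
    rw [hβ]
    exact one2v rs pg1 pg2 pg3 core2 p hp2 n _ w Ω A alg d k r e (3 * k + e + 2) τ (by omega) hK1
      hCM (by rw [← hD']; exact h3) ω (before vs q) (vs q) (π q) (hsep q hq))
  have := last (Nat.cast_nonneg L) (Nat.cast_nonneg τ) hγ0 hβ2 hc0 h2 hav
  rw [hc, hD'r] at this
  refine this.trans (le_of_eq ?_)
  ring


theorem fin3v (pg1 : S_PG1) (pg2 : S_PG2) (pg3 : S_PG3) (co2 : S_CO2) (cr4 : S_CR4)
    (nm4 : S_NM4) (avg : S_AVG) {n K L : ℕ} (hKn : K ≤ n)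
    (vs : Fin n → Vec n) (π : Fin n → Fin n → Option (Fin K)) (hL : L ≤ n)
    (hsep : ∀ q : Fin n, q.val < L → Sep (π q) (before vs q) (vs q))
    (Ω A : Type) [Fintype Ω] (w : ℕ) (alg : Alg n Ω A w)
    (μ : Ω → ℝ) (hμ : IsProb μ) (γ : ℝ) (hR : RightOn alg vs μ γ) :
    ∀ [Fintype A] (d k r e : ℕ), 1 ≤ w → 1 ≤ r → n ≤ 2 ^ k → 1 / 2 ^ k ≤ γ →
      Fintype.card A * w ≤ 2 ^ k → (24 * (r * (e + 3 * k + d + 2))) ^ (d + 1) ≤ K →
      AC0Mem alg d k r e →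
      γ * (L * (n * K)) ≤ 2 * (24 * (r * (e + 3 * k + d + 2)) : ℝ) ^ (d + 1) *
          (w * mavg (fun M => ∑ ω, μ ω * ∑ q, ((alg.probes ω M vs q).length : ℝ))) := by
  intro _ d k r e hw hr hn hγ hAw hlam hDM
  obtain ⟨s, hs⟩ : ∃ s : ℕ, s = e + 3 * k + d + 2 := ⟨_, rfl⟩
  rw [← hs] at hlam
  obtain ⟨D0, m', τ, hD0, hτ, hβ, hx⟩ := nm4 n K w (Fintype.card A * w) d k e r s hs hr hn hAw hw
    hlam hKn
  have hsr : (s : ℝ) = (e + 3 * k + d + 2 : ℝ) := by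
    rw [hs]
    push_cast
    rfl
  have hs1 : 1 ≤ s := by omega
  have hrr : (1 : ℝ) ≤ r := by exact_mod_cast hr
  have hss : (1 : ℝ) ≤ s := by exact_mod_cast hs1
  have hrs : (1 : ℝ) ≤ r * s := one_le_mul_of_one_le_of_one_le hrr hss
  have hw' : (0 : ℝ) < w := by exact_mod_cast hw
  have hγ0 : 0 ≤ γ := le_trans (by positivity) hγ
  obtain ⟨β, hβd⟩ : ∃ β : ℝ, β = 2 ^ e * (1 / 2 ^ m' +
    n * (2 ^ D0 * (1 - (1 / (24 * (r * s) : ℝ)) ^ d / 2) ^ K) +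
    (Fintype.card A * w : ℕ) * (d * 2 ^ k * (12 * (r * s) * (1 / (24 * (r * s) : ℝ))) ^ (s + 1))) :=
    ⟨_, rfl⟩
  rw [← hβd] at hβ
  have hav := avg n w Ω A alg μ hμ vs γ hR L hL τ β (by
    intro ω q hq
    rw [hβd]
    exact one3v pg1 pg2 pg3 co2 cr4 n K w Ω A alg d k r e s D0 m' τ _ (by positivity)
      (by
        rw [div_le_div_iff₀ (by positivity) (by norm_num)]
        linarith) hr hs1 hD0 hτ hDM ω (before vs q) (vs q) (π q) (hsep q hq))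
  obtain ⟨c, hc⟩ : ∃ c : ℝ, c = (24 * (r * s) : ℝ) ^ (d + 1) * w := ⟨_, rfl⟩
  have hc0 : 0 < c := by
    rw [hc]
    positivity
  rw [← hc] at hx
  have := last (Nat.cast_nonneg L) (Nat.cast_nonneg τ) hγ0 (by linarith) hc0 hx hav
  rw [hc, hsr] at this
  refine this.trans (le_of_eq ?_)
  ring

end Pool.Agent.Helper89K9.MA
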