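import Pool.Agent.Helper89K9.MA.Stm
import Pool.Agent.Helper89K9.MC.One

/-!
# Project MA: one vector, polynomials modulo `p`
-/

set_option autoImplicit false

namespace Pool.Agent.Helper89K9.MA

open Finset
open H746R3.Inv (LD bK Circuit Kind)
open Pool.Agent.TH163.AC2 (Alg lenE rightE mavg)
open Pool.Agent.H699R2.OMV (Prog Vec Mat IsProb before)
open Pool.Agent.Helper89K9.MC (lam)
open Pool.Agent.Helper89K9.MC.OneL (card_mat)

namespace OneL

open Classical in
/-- averaging over the restrictions -/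
lemma nRight_le {n w K : ℕ} {Ω A : Type} (pm2 : S_PM2) (alg : Alg n Ω A w) (ω : Ω)
    (h : List (Vec n)) (τ : ℕ) (v : Vec n) (π : Fin n → Option (Fin K)) (B : ℝ)
    (hB : ∀ X : Mat n, ((univ.filter fun z : Fin n × Fin K → Bool =>
      alg.ans ω h (pm π X z) v = (pm π X z).mulVec v ∧
        (alg.adr ω h (pm π X z) v).length ≤ τ).card : ℝ) ≤ 2 ^ (n * K) * B) :
    (nRight alg ω h τ v : ℝ) ≤ 2 ^ (n * n) * B := by
  have h1 : (nRight alg ω h τ v : ℝ) = ∑ M : Mat n,
      (if alg.ans ω h M v = M.mulVec v ∧ (alg.adr ω h M v).length ≤ τ then (1 : ℝ) else 0) := by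
    unfold nRight
    rw [Finset.card_filter]
    push_cast
    rfl
  have h2 := pm2 n K π (fun M : Mat n =>
    (if alg.ans ω h M v = M.mulVec v ∧ (alg.adr ω h M v).length ≤ τ then (1 : ℝ) else 0))
  rw [← h1] at h2
  have h3 : ∑ X : Mat n, ∑ z : Fin n × Fin K → Bool,
      (if alg.ans ω h (pm π X z) v = (pm π X z).mulVec v ∧
        (alg.adr ω h (pm π X z) v).length ≤ τ then (1 : ℝ) else 0) ≤
      ∑ _X : Mat n, 2 ^ (n * K) * B := by
    apply Finset.sum_le_sum
    intro X _
    refine le_trans (le_of_eq ?_) (hB X)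
    rw [Finset.card_filter]
    push_cast
    rfl
  rw [Finset.sum_const, Finset.card_univ, nsmul_eq_mul, card_mat] at h3
  have h4 : (2 : ℝ) ^ (n * K) * (nRight alg ω h τ v : ℝ) ≤ 2 ^ (n * K) * (2 ^ (n * n) * B) := by
    rw [← h2]
    refine h3.trans (le_of_eq ?_)
    ring
  exact le_of_mul_le_mul_left h4 (by positivity)

lemma map_pm {n K : ℕ} (pm1 : S_PM1) (π : Fin n → Option (Fin K)) (h : List (Vec n)) (v : Vec n)
    (hs : Sep π h v) (X : Mat n) (z : Fin n × Fin K → Bool) :
    h.map (pm π X z).mulVec = h.map X.mulVec :=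
  List.map_congr_left fun u hu => (pm1 n K π h v hs X z).1 u hu

end OneL

open OneL

open Classical in
theorem one1 (pm1 : S_PM1) (pm2 : S_PM2) (pm3 : S_PM3) (vir : S_VIR) (core1 : S_CORE1) :
    S_ONE1 := by
  intro p hpf hp2 n K w Ω A alg D s e τ hPM ω h v π hsep
  obtain ⟨f, hf⟩ := hPM ω h
  obtain ⟨B, hB⟩ : ∃ B : ℝ, B = 1 / 2 ^ (n / 8) + ((p : ℝ) ^ s) ^ τ *
    (1 - 1 / lam p D) ^ (n * K / 4) := ⟨_, rfl⟩
  rw [← hB]
  apply nRight_le pm2 alg ω h τ v π
  intro X
  obtain ⟨mm, hmm, hmP⟩ := vir p (Fin n × Fin K → Bool) A (Fin w → Bool) (Fin e → Bool)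
    (LD (ZMod p) (Fin n × Fin K) D : Set ((Fin n × Fin K → Bool) → ZMod p)) s
    (fun z => alg.mem ω h (pm π X z)) (fun z => f (pm π X z)) (by
      intro a y
      obtain ⟨P, hPd, hPm⟩ := hf a y
      refine ⟨fun j z => MvPolynomial.eval
        (fun c => if bits h (pm π X z) c then (1 : ZMod p) else 0) (P j), fun j => ?_, ?_⟩
      · exact (pm3 n K π h v hsep p X).2 D (P j) (hPd j)
      · intro x x' hx hx' hj
        exact hPm _ _ hx hx' hj)
  have h1 : (univ.filter fun z : Fin n × Fin K → Bool =>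
      alg.ans ω h (pm π X z) v = (pm π X z).mulVec v ∧
        (alg.adr ω h (pm π X z) v).length ≤ τ) ⊆
      (univ : Finset (Fin e → Bool)).biUnion (fun y => univ.filter fun z : Fin n × Fin K → Bool =>
        (alg.prog ω h (h.map X.mulVec) v).out (mm y z) = X.mulVec v + par z ∧
        ((alg.prog ω h (h.map X.mulVec) v).addrs (mm y z)).length ≤ τ) := by
    intro z hz
    rw [Finset.mem_filter] at hz
    rw [Finset.mem_biUnion]
    refine ⟨f (pm π X z), Finset.mem_univ _, ?_⟩
    rw [Finset.mem_filter, hmm z]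
    refine ⟨Finset.mem_univ _, ?_, ?_⟩
    · rw [← (pm1 n K π h v hsep X z).2, ← map_pm pm1 π h v hsep X z]
      exact hz.2.1
    · rw [← map_pm pm1 π h v hsep X z]
      exact hz.2.2
  have h2 := (Finset.card_le_card h1).trans Finset.card_biUnion_le
  have h3 : ∀ y : Fin e → Bool, ((univ.filter fun z : Fin n × Fin K → Bool =>
        (alg.prog ω h (h.map X.mulVec) v).out (mm y z) = X.mulVec v + par z ∧
        ((alg.prog ω h (h.map X.mulVec) v).addrs (mm y z)).length ≤ τ).card : ℝ) ≤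
        2 ^ (n * K) * B := by
    intro y
    rw [hB]
    have := core1 p hp2 n K A (Fin w → Bool) D s τ (mm y) (alg.prog ω h (h.map X.mulVec) v)
      (X.mulVec v) (hmP y)
    refine le_trans (le_of_eq ?_) this
    congr 1
  calc ((univ.filter fun z : Fin n × Fin K → Bool =>
      alg.ans ω h (pm π X z) v = (pm π X z).mulVec v ∧
        (alg.adr ω h (pm π X z) v).length ≤ τ).card : ℝ) ≤ ∑ y : Fin e → Bool,
        ((univ.filter fun z : Fin n × Fin K → Bool =>
        (alg.prog ω h (h.map X.mulVec) v).out (mm y z) = X.mulVec v + par z ∧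
        ((alg.prog ω h (h.map X.mulVec) v).addrs (mm y z)).length ≤ τ).card : ℝ) := by
        exact_mod_cast h2
    _ ≤ ∑ _y : Fin e → Bool, 2 ^ (n * K) * B := Finset.sum_le_sum fun y _ => h3 y
    _ = 2 ^ (n * K) * (2 ^ e * B) := by
        rw [Finset.sum_const, Finset.card_univ, Fintype.card_fun, Fintype.card_bool,
          Fintype.card_fin, nsmul_eq_mul]
        push_cast
        ring

end Pool.Agent.Helper89K9.MA
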