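import Pool.Agent.Helper89K9.MA.One1
import Pool.Agent.W918.TM.RS

/-!
# Project MA: one vector, circuits
-/

set_option autoImplicit false

namespace Pool.Agent.Helper89K9.MA

open Finset
open H746R3.Inv (LD bK Circuit Kind)
open Pool.Agent.W905.TM (Acc S_RS)
open Pool.Agent.TH163.AC2 (Alg lenE rightE mavg)
open Pool.Agent.H699R2.OMV (Prog Vec Mat IsProb before)
open Pool.Agent.Helper89K9.MC (lam)

open OneL

namespace OneL

lemma acc_iff {I : Type} {p : ℕ} (C : Circuit I Unit) (x : I → Bool) (b : Bool)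
    (h : C.Computes p x (fun _ => b)) : Acc p C x ↔ b = true := by
  obtain ⟨v, hv, hb⟩ := h
  constructor
  · rintro ⟨v', hv', hb'⟩
    have h1 : v' = v := (C.existsUnique_run p x).unique hv' hv
    rw [h1] at hb'
    have h2 := hb ()
    have h3 := hb' ()
    exact h2.trans h3.symm
  · intro hbt
    refine ⟨v, hv, fun j => ?_⟩
    have h2 := hb j
    rw [← h2]
    exact hbt.symm

end OneL

open Classical in
theorem one2 (rs : S_RS) (pm1 : S_PM1) (pm2 : S_PM2) (pm3 : S_PM3) (core2 : S_CORE2) :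
    S_ONE2 := by
  intro p hpf hp2 n K w Ω A _ alg d k r ℓ τ hℓ hK hCM hT ω h v π hsep
  have hp : p.Prime := hpf.out
  apply nRight_le pm2 alg ω h τ v π
  intro X
  choose C hCG hCd hCw hCc using hCM ω h
  have hQ : ∀ (a : A) (i : Fin w), ∃ Q ∈ LD (ZMod p) (Fin n × Fin K) ((ℓ * p + r) ^ d),
      (univ.filter fun z : Fin n × Fin K → Bool =>
        ¬ (Q z = bK (alg.mem ω h (pm π X z) a i))).card * p ^ ℓ ≤ 2 ^ k * 2 ^ (n * K) := by
    intro a i
    obtain ⟨Q, hQ, hQc⟩ := rs p (C a i) d r ℓ 1 hℓ le_rfl (hCd a i) (hCw a i)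
      (fun c z => bits h (pm π X z) c) (fun c => (pm3 n K π h v hsep p X).1 c)
    rw [one_mul] at hQ
    refine ⟨Q, hQ, ?_⟩
    rw [Fintype.card_prod, Fintype.card_fin, Fintype.card_fin] at hQc
    refine le_trans (le_of_eq ?_) (hQc.trans (Nat.mul_le_mul_right _ (hCG a i)))
    congr 2
    apply Finset.filter_congr
    intro z _
    have h1 : decide (Acc p (C a i) fun c => bits h (pm π X z) c) =
        alg.mem ω h (pm π X z) a i := by
      rw [Bool.eq_iff_iff, decide_eq_true_iff]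
      exact acc_iff (C a i) _ _ (hCc a i (pm π X z))
    rw [h1]
  choose Q hQL hQc using hQ
  obtain ⟨m, hm⟩ : ∃ m : (Fin n × Fin K → Bool) → A → Fin w → Bool,
    m = fun z => alg.mem ω h (pm π X z) := ⟨_, rfl⟩
  obtain ⟨T, hTT⟩ : ∃ T : Prog A (Fin w → Bool) (Vec n), T = alg.prog ω h (h.map X.mulVec) v :=
    ⟨_, rfl⟩
  have h0 := core2 p hp2 n K w A ((ℓ * p + r) ^ d) τ hK hT m T (X.mulVec v) Q hQL
  obtain ⟨𝒢, h𝒢⟩ : ∃ 𝒢 : Finset (Fin n × Fin K → Bool), 𝒢 =
    univ.filter fun z : Fin n × Fin K → Bool => (∀ a i, Q a i z = bK (m z a i)) ∧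
      T.out (m z) = X.mulVec v + par z ∧ (T.addrs (m z)).length ≤ τ := ⟨_, rfl⟩
  have h1 : (univ.filter fun z : Fin n × Fin K → Bool =>
      alg.ans ω h (pm π X z) v = (pm π X z).mulVec v ∧
        (alg.adr ω h (pm π X z) v).length ≤ τ) ⊆
      𝒢 ∪ (univ : Finset (A × Fin w)).biUnion (fun c =>
        univ.filter fun z : Fin n × Fin K → Bool =>
          ¬ (Q c.1 c.2 z = bK (alg.mem ω h (pm π X z) c.1 c.2))) := by
    intro z hz
    rw [Finset.mem_filter] at hz
    rw [Finset.mem_union]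
    by_cases hall : ∀ a i, Q a i z = bK (m z a i)
    · left
      rw [h𝒢, Finset.mem_filter]
      refine ⟨Finset.mem_univ _, hall, ?_, ?_⟩
      · rw [← (pm1 n K π h v hsep X z).2, hTT, ← map_pm pm1 π h v hsep X z, hm]
        exact hz.2.1
      · rw [hTT, ← map_pm pm1 π h v hsep X z, hm]
        exact hz.2.2
    · right
      push Not at hall
      obtain ⟨a, i, hai⟩ := hall
      rw [Finset.mem_biUnion]
      refine ⟨(a, i), Finset.mem_univ _, ?_⟩
      rw [Finset.mem_filter]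
      rw [hm] at hai
      exact ⟨Finset.mem_univ _, hai⟩
  have h2 := (Finset.card_le_card h1).trans ((Finset.card_union_le _ _).trans
    (Nat.add_le_add_left Finset.card_biUnion_le _))
  have hp0 : (0 : ℝ) < (p : ℝ) ^ ℓ := by
    have : 0 < p := hp.pos
    positivity
  have h3 : ((univ.filter fun z : Fin n × Fin K → Bool =>
      alg.ans ω h (pm π X z) v = (pm π X z).mulVec v ∧
        (alg.adr ω h (pm π X z) v).length ≤ τ).card : ℝ) ≤ (𝒢.card : ℝ) +
      ∑ c : A × Fin w, ((univ.filter fun z : Fin n × Fin K → Bool =>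
          ¬ (Q c.1 c.2 z = bK (alg.mem ω h (pm π X z) c.1 c.2))).card : ℝ) := by
    exact_mod_cast h2
  have h4 : (𝒢.card : ℝ) ≤ 2 ^ (n * K) * (1 / 2 ^ (n / 24)) := by
    have h00 : 𝒢.card * 2 ^ (n / 24) ≤ 2 ^ (n * K) := by
      rw [h𝒢]
      refine le_trans (le_of_eq ?_) h0
      congr 2
      ext z
      simp only [Finset.mem_filter]
    rw [mul_one_div, le_div_iff₀ (by positivity)]
    exact_mod_cast h00
  have h5 : ∀ c : A × Fin w, ((univ.filter fun z : Fin n × Fin K → Bool =>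
          ¬ (Q c.1 c.2 z = bK (alg.mem ω h (pm π X z) c.1 c.2))).card : ℝ) ≤
          2 ^ k * 2 ^ (n * K) / (p : ℝ) ^ ℓ := by
    intro c
    rw [le_div_iff₀ hp0]
    exact_mod_cast hQc c.1 c.2
  have h6 : ∑ c : A × Fin w, ((univ.filter fun z : Fin n × Fin K → Bool =>
          ¬ (Q c.1 c.2 z = bK (alg.mem ω h (pm π X z) c.1 c.2))).card : ℝ) ≤
          (Fintype.card A * w : ℕ) * (2 ^ k * 2 ^ (n * K) / (p : ℝ) ^ ℓ) := by
    refine (Finset.sum_le_sum fun c _ => h5 c).trans (le_of_eq ?_)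
    rw [Finset.sum_const, Finset.card_univ, Fintype.card_prod, Fintype.card_fin, nsmul_eq_mul]
  refine h3.trans ((add_le_add h4 h6).trans (le_of_eq ?_))
  ring

end Pool.Agent.Helper89K9.MA
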