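import Pool.Agent.Helper89K9.MA.One2
import Pool.Agent.Helper89K9.MA.Fin12

/-!
# Project MA: circuits with side information
-/

set_option autoImplicit false

namespace Pool.Agent.Helper89K9.MA

open Finset
open H746R3.Inv (LD bK Circuit Kind)
open Pool.Agent.W905.TM (Acc S_RS)
open Pool.Agent.TH163.AC2 (Alg lenE rightE mavg)
open Pool.Agent.H699R2.OMV (Prog Vec Mat IsProb before)
open Pool.Agent.Helper89K9.MC (lam)

open OneL FinL

/-- For given coins and earlier vectors there are `e` arbitrary bits `f M` of side information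
about the matrix such that, for each value `y` of the side information, every bit of every cell is
computed from the bits of the matrix and of all earlier answers by a circuit with at most `2 ^ k`
gates of depth at most `d`: AND, OR, MOD-`p` (unbounded fan-in) and arbitrary gates of fan-in at
most `r`, on all matrices with this side information. -/
def CircSide {n : ℕ} {Ω A : Type} {w : ℕ} (p : ℕ) (alg : Alg n Ω A w) (d k r e : ℕ) : Prop :=
  ∀ (ω : Ω) (h : List (Vec n)), ∃ f : Mat n → Fin e → Bool, ∀ (a : A) (i : Fin w)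
    (y : Fin e → Bool), ∃ C : Circuit ((Fin n × Fin n) ⊕ (Fin h.length × Fin n)) Unit,
      C.G ≤ 2 ^ k ∧ C.DepthLE d ∧ (∀ g, (C.kind g).IsWild → (C.wires g).length ≤ r) ∧
      ∀ M : Mat n, f M = y → C.Computes p (bits h M) (fun _ => alg.mem ω h M a i)

open Classical in
theorem one2e (rs : S_RS) (pm1 : S_PM1) (pm2 : S_PM2) (pm3 : S_PM3) (core2 : S_CORE2)
    (p : ℕ) [hpf : Fact p.Prime] (hp2 : p ≠ 2) (n K w : ℕ) (Ω A : Type) [Fintype A]
    (alg : Alg n Ω A w) (d k r e ℓ τ : ℕ) (hℓ : 1 ≤ ℓ) (hK : 1 ≤ K)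
    (hCM : CircSide p alg d k r e)
    (hT : (512 * (τ * (w * (ℓ * p + r) ^ d))) ^ 2 ≤ n ^ 2 * K)
    (ω : Ω) (h : List (Vec n)) (v : Vec n) (π : Fin n → Option (Fin K)) (hsep : Sep π h v) :
    (nRight alg ω h τ v : ℝ) ≤ 2 ^ (n * n) *
      (2 ^ e * (1 / 2 ^ (n / 24) + (Fintype.card A * w : ℕ) * 2 ^ k / (p : ℝ) ^ ℓ)) := by
  have hp : p.Prime := hpf.out
  apply nRight_le pm2 alg ω h τ v π
  intro X
  obtain ⟨f, hf⟩ := hCM ω h
  choose C hCG hCd hCw hCc using hf
  -- the memory for each value of the side information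
  obtain ⟨mm, hmm⟩ : ∃ mm : (Fin e → Bool) → (Fin n × Fin K → Bool) → A → Fin w → Bool,
    mm = fun y z a i => decide (Acc p (C a i y) (bits h (pm π X z))) := ⟨_, rfl⟩
  have hmem : ∀ z : Fin n × Fin K → Bool,
      alg.mem ω h (pm π X z) = mm (f (pm π X z)) z := by
    intro z
    rw [hmm]
    funext a i
    symm
    rw [Bool.eq_iff_iff, decide_eq_true_iff]
    exact acc_iff (C a i _) _ _ (hCc a i (f (pm π X z)) (pm π X z) rfl)
  have hQ : ∀ (y : Fin e → Bool) (a : A) (i : Fin w),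
      ∃ Q ∈ LD (ZMod p) (Fin n × Fin K) ((ℓ * p + r) ^ d),
      (univ.filter fun z : Fin n × Fin K → Bool =>
        ¬ (Q z = bK (mm y z a i))).card * p ^ ℓ ≤ 2 ^ k * 2 ^ (n * K) := by
    intro y a i
    obtain ⟨Q, hQ, hQc⟩ := rs p (C a i y) d r ℓ 1 hℓ le_rfl (hCd a i y) (hCw a i y)
      (fun c z => bits h (pm π X z) c) (fun c => (pm3 n K π h v hsep p X).1 c)
    rw [one_mul] at hQ
    refine ⟨Q, hQ, ?_⟩
    rw [Fintype.card_prod, Fintype.card_fin, Fintype.card_fin] at hQc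
    refine le_trans (le_of_eq ?_) (hQc.trans (Nat.mul_le_mul_right _ (hCG a i y)))
    congr 2
    apply Finset.filter_congr
    intro z _
    rw [hmm]
  choose Q hQL hQc using hQ
  obtain ⟨T, hTT⟩ : ∃ T : Prog A (Fin w → Bool) (Vec n), T = alg.prog ω h (h.map X.mulVec) v :=
    ⟨_, rfl⟩
  obtain ⟨B, hB⟩ : ∃ B : ℝ, B = 1 / 2 ^ (n / 24) + (Fintype.card A * w : ℕ) * 2 ^ k /
    (p : ℝ) ^ ℓ := ⟨_, rfl⟩
  rw [← hB]
  have h1 : (univ.filter fun z : Fin n × Fin K → Bool =>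
      alg.ans ω h (pm π X z) v = (pm π X z).mulVec v ∧
        (alg.adr ω h (pm π X z) v).length ≤ τ) ⊆
      (univ : Finset (Fin e → Bool)).biUnion (fun y => univ.filter fun z : Fin n × Fin K → Bool =>
        T.out (mm y z) = X.mulVec v + par z ∧ (T.addrs (mm y z)).length ≤ τ) := by
    intro z hz
    rw [Finset.mem_filter] at hz
    rw [Finset.mem_biUnion]
    refine ⟨f (pm π X z), Finset.mem_univ _, ?_⟩
    rw [Finset.mem_filter, ← hmem z]
    refine ⟨Finset.mem_univ _, ?_, ?_⟩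
    · rw [← (pm1 n K π h v hsep X z).2, hTT, ← map_pm pm1 π h v hsep X z]
      exact hz.2.1
    · rw [hTT, ← map_pm pm1 π h v hsep X z]
      exact hz.2.2
  have h2 := (Finset.card_le_card h1).trans Finset.card_biUnion_le
  have h3 : ∀ y : Fin e → Bool, ((univ.filter fun z : Fin n × Fin K → Bool =>
        T.out (mm y z) = X.mulVec v + par z ∧ (T.addrs (mm y z)).length ≤ τ).card : ℝ) ≤
        2 ^ (n * K) * B := by
    intro y
    have h0 := core2 p hp2 n K w A ((ℓ * p + r) ^ d) τ hK hT (mm y) T (X.mulVec v) (Q y) (hQL y)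
    obtain ⟨𝒢, h𝒢⟩ : ∃ 𝒢 : Finset (Fin n × Fin K → Bool), 𝒢 =
      univ.filter fun z : Fin n × Fin K → Bool => (∀ a i, Q y a i z = bK (mm y z a i)) ∧
        T.out (mm y z) = X.mulVec v + par z ∧ (T.addrs (mm y z)).length ≤ τ := ⟨_, rfl⟩
    have h4 : (univ.filter fun z : Fin n × Fin K → Bool =>
        T.out (mm y z) = X.mulVec v + par z ∧ (T.addrs (mm y z)).length ≤ τ) ⊆
        𝒢 ∪ (univ : Finset (A × Fin w)).biUnion (fun c =>
          univ.filter fun z : Fin n × Fin K → Bool =>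
            ¬ (Q y c.1 c.2 z = bK (mm y z c.1 c.2))) := by
      intro z hz
      rw [Finset.mem_filter] at hz
      rw [Finset.mem_union]
      by_cases hall : ∀ a i, Q y a i z = bK (mm y z a i)
      · left
        rw [h𝒢, Finset.mem_filter]
        exact ⟨Finset.mem_univ _, hall, hz.2⟩
      · right
        push Not at hall
        obtain ⟨a, i, hai⟩ := hall
        rw [Finset.mem_biUnion]
        refine ⟨(a, i), Finset.mem_univ _, ?_⟩
        rw [Finset.mem_filter]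
        exact ⟨Finset.mem_univ _, hai⟩
    have h5 := (Finset.card_le_card h4).trans ((Finset.card_union_le _ _).trans
      (Nat.add_le_add_left Finset.card_biUnion_le _))
    have hp0 : (0 : ℝ) < (p : ℝ) ^ ℓ := by
      have : 0 < p := hp.pos
      positivity
    have h6 : ((univ.filter fun z : Fin n × Fin K → Bool =>
        T.out (mm y z) = X.mulVec v + par z ∧ (T.addrs (mm y z)).length ≤ τ).card : ℝ) ≤
        (𝒢.card : ℝ) + ∑ c : A × Fin w, ((univ.filter fun z : Fin n × Fin K → Bool =>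
            ¬ (Q y c.1 c.2 z = bK (mm y z c.1 c.2))).card : ℝ) := by
      exact_mod_cast h5
    have h7 : (𝒢.card : ℝ) ≤ 2 ^ (n * K) * (1 / 2 ^ (n / 24)) := by
      have h00 : 𝒢.card * 2 ^ (n / 24) ≤ 2 ^ (n * K) := by
        rw [h𝒢]
        refine le_trans (le_of_eq ?_) h0
        congr 2
        ext z
        simp only [Finset.mem_filter]
      rw [mul_one_div, le_div_iff₀ (by positivity)]
      exact_mod_cast h00
    have h8 : ∀ c : A × Fin w, ((univ.filter fun z : Fin n × Fin K → Bool =>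
            ¬ (Q y c.1 c.2 z = bK (mm y z c.1 c.2))).card : ℝ) ≤
            2 ^ k * 2 ^ (n * K) / (p : ℝ) ^ ℓ := by
      intro c
      rw [le_div_iff₀ hp0]
      exact_mod_cast hQc y c.1 c.2
    have h9 : ∑ c : A × Fin w, ((univ.filter fun z : Fin n × Fin K → Bool =>
            ¬ (Q y c.1 c.2 z = bK (mm y z c.1 c.2))).card : ℝ) ≤
            (Fintype.card A * w : ℕ) * (2 ^ k * 2 ^ (n * K) / (p : ℝ) ^ ℓ) := by
      refine (Finset.sum_le_sum fun c _ => h8 c).trans (le_of_eq ?_)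
      rw [Finset.sum_const, Finset.card_univ, Fintype.card_prod, Fintype.card_fin, nsmul_eq_mul]
    refine h6.trans ((add_le_add h7 h9).trans (le_of_eq ?_))
    rw [hB]
    ring
  calc ((univ.filter fun z : Fin n × Fin K → Bool =>
      alg.ans ω h (pm π X z) v = (pm π X z).mulVec v ∧
        (alg.adr ω h (pm π X z) v).length ≤ τ).card : ℝ) ≤ ∑ y : Fin e → Bool,
        ((univ.filter fun z : Fin n × Fin K → Bool =>
        T.out (mm y z) = X.mulVec v + par z ∧ (T.addrs (mm y z)).length ≤ τ).card : ℝ) := by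
        exact_mod_cast h2
    _ ≤ ∑ _y : Fin e → Bool, 2 ^ (n * K) * B := Finset.sum_le_sum fun y _ => h3 y
    _ = 2 ^ (n * K) * (2 ^ e * B) := by
        rw [Finset.sum_const, Finset.card_univ, Fintype.card_fun, Fintype.card_bool,
          Fintype.card_fin, nsmul_eq_mul]
        push_cast
        ring

theorem fin2e (rs : S_RS) (pm1 : S_PM1) (pm2 : S_PM2) (pm3 : S_PM3) (core2 : S_CORE2)
    (avg : S_AVG) {n K L : ℕ} (hK1 : 1 ≤ K)
    (vs : Fin n → Vec n) (π : Fin n → Fin n → Option (Fin K)) (hL : L ≤ n)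
    (hsep : ∀ q : Fin n, q.val < L → Sep (π q) (before vs q) (vs q))
    (p : ℕ) [hpf : Fact p.Prime] (hp2 : p ≠ 2) (Ω A : Type) [Fintype Ω] (w : ℕ) (alg : Alg n Ω A w)
    (μ : Ω → ℝ) (hμ : IsProb μ) (γ : ℝ) (hR : RightOn alg vs μ γ) :
    ∀ [Fintype A] (d k r e : ℕ), 1 ≤ w → 24 * (k + e + 3) ≤ n → 1 / 2 ^ k ≤ γ →
      Fintype.card A * w ≤ 2 ^ k → CircSide p alg d k r e →
      γ * (L * (n * Real.sqrt K)) ≤ 2 ^ 10 * ((3 * k + e + 2 : ℝ) * p + r) ^ d *
          (w * mavg (fun M => ∑ ω, μ ω * ∑ q, ((alg.probes ω M vs q).length : ℝ))) := by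
  intro _ d k r e hw hk hγ hAw hCM
  have hp : p.Prime := hpf.out
  have hp3 : 3 ≤ p := by
    have := hp.two_le
    omega
  obtain ⟨D', hD'⟩ : ∃ D' : ℕ, D' = ((3 * k + e + 2) * p + r) ^ d := ⟨_, rfl⟩
  have hD0 : 0 < D' := by
    rw [hD']
    have : 0 < (3 * k + e + 2) * p := by positivity
    positivity
  have hD'r : (D' : ℝ) = ((3 * k + e + 2 : ℝ) * p + r) ^ d := by
    rw [hD']
    push_cast
    rfl
  obtain ⟨c, hc⟩ : ∃ c : ℝ, c = 512 * (w * D') := ⟨_, rfl⟩
  have hw' : (0 : ℝ) < w := by exact_mod_cast hw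
  have hDr0 : (0 : ℝ) < D' := by exact_mod_cast hD0
  have hc0 : 0 < c := by rw [hc]; positivity
  obtain ⟨τ, hτ⟩ : ∃ τ : ℕ, τ = ⌊((n : ℝ) * Real.sqrt K) / c⌋₊ := ⟨_, rfl⟩
  have h1 : c * τ ≤ (n : ℝ) * Real.sqrt K := by
    have := Nat.floor_le (show (0 : ℝ) ≤ ((n : ℝ) * Real.sqrt K) / c by positivity)
    rw [← hτ, le_div_iff₀ hc0] at this
    linarith
  have h2 : (n : ℝ) * Real.sqrt K ≤ c * (τ + 1) := by
    have := (Nat.lt_floor_add_one (((n : ℝ) * Real.sqrt K) / c)).le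
    rw [← hτ, div_le_iff₀ hc0] at this
    linarith
  have hγ0 : 0 ≤ γ := le_trans (by positivity) hγ
  have h3 : (512 * (τ * (w * D'))) ^ 2 ≤ n ^ 2 * K := by
    have h4 : (c * τ) ^ 2 ≤ ((n : ℝ) * Real.sqrt K) ^ 2 :=
      pow_le_pow_left₀ (by positivity) h1 2
    rw [mul_pow (n : ℝ), Real.sq_sqrt (Nat.cast_nonneg K)] at h4
    have h5 : (((512 * (τ * (w * D'))) ^ 2 : ℕ) : ℝ) ≤ ((n ^ 2 * K : ℕ) : ℝ) := by
      push_cast
      refine le_trans (le_of_eq ?_) h4
      rw [hc]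
      ring
    exact_mod_cast h5
  obtain ⟨β, hβ⟩ : ∃ β : ℝ, β = 2 ^ e * (1 / 2 ^ (n / 24) + (Fintype.card A * w : ℕ) * 2 ^ k /
    (p : ℝ) ^ (3 * k + e + 2)) := ⟨_, rfl⟩
  have hβ2 : β ≤ γ / 2 := by
    have h6 : (1 : ℝ) / 2 ^ (n / 24) ≤ 1 / 2 ^ (k + e + 3) := by
      apply one_div_le_one_div_of_le (by positivity)
      exact pow_le_pow_right₀ (by norm_num) (by omega)
    have h7 : ((Fintype.card A * w : ℕ) : ℝ) * 2 ^ k / (p : ℝ) ^ (3 * k + e + 2) ≤
        1 / (8 * 2 ^ k * 2 ^ e) := by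
      have h8 : ((Fintype.card A * w : ℕ) : ℝ) ≤ 2 ^ k := by exact_mod_cast hAw
      have h9 : (8 : ℝ) ^ (k + 1) * 2 ^ e ≤ (p : ℝ) ^ (3 * k + e + 2) := by
        calc (8 : ℝ) ^ (k + 1) * 2 ^ e = 8 * 8 ^ k * 2 ^ e := by ring
          _ ≤ 9 * 27 ^ k * 3 ^ e := by
            apply mul_le_mul _ _ (by positivity) (by positivity)
            · have : (8 : ℝ) ^ k ≤ 27 ^ k := pow_le_pow_left₀ (by norm_num) (by norm_num) k
              have h0 : (0 : ℝ) ≤ 8 ^ k := by positivity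
              linarith
            · exact pow_le_pow_left₀ (by norm_num) (by norm_num) e
          _ = (3 : ℝ) ^ (3 * k + e + 2) := by
            rw [pow_add, pow_add, pow_mul]
            norm_num
            ring
          _ ≤ (p : ℝ) ^ (3 * k + e + 2) := by
            apply pow_le_pow_left₀ (by norm_num)
            exact_mod_cast hp3
      have hp0 : (0 : ℝ) < (p : ℝ) ^ (3 * k + e + 2) := by
        have : 0 < p := hp.pos
        positivity
      rw [div_le_div_iff₀ hp0 (by positivity)]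
      have h10 : (8 : ℝ) ^ (k + 1) = 8 * (2 ^ k * 2 ^ k * 2 ^ k) := by
        rw [pow_succ, show (8 : ℝ) = 2 * 2 * 2 by norm_num, mul_pow, mul_pow]
        ring
      have h11 : ((Fintype.card A * w : ℕ) : ℝ) * 2 ^ k * (8 * 2 ^ k * 2 ^ e) ≤
          2 ^ k * 2 ^ k * (8 * 2 ^ k * 2 ^ e) := by
        apply mul_le_mul_of_nonneg_right _ (by positivity)
        exact mul_le_mul_of_nonneg_right h8 (by positivity)
      calc ((Fintype.card A * w : ℕ) : ℝ) * 2 ^ k * (8 * 2 ^ k * 2 ^ e) ≤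
          2 ^ k * 2 ^ k * (8 * 2 ^ k * 2 ^ e) := h11
        _ = 8 ^ (k + 1) * 2 ^ e := by rw [h10]; ring
        _ ≤ 1 * (p : ℝ) ^ (3 * k + e + 2) := by linarith
    have h12 : (2 : ℝ) ^ e * (1 / 2 ^ (k + e + 3)) = 1 / 2 ^ k / 8 := by
      rw [pow_add, pow_add]
      field_simp
      norm_num
    have h13 : (2 : ℝ) ^ e * (1 / (8 * 2 ^ k * 2 ^ e)) = 1 / 2 ^ k / 8 := by
      field_simp
    have h14 : (0 : ℝ) ≤ 1 / 2 ^ k := by positivity
    have h15 : (0 : ℝ) ≤ 2 ^ e := by positivity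
    have h16 := mul_le_mul_of_nonneg_left (add_le_add h6 h7) h15
    rw [mul_add (2 ^ e) (1 / 2 ^ (k + e + 3) : ℝ), h12, h13] at h16
    rw [hβ]
    linarith
  have hav := avg n w Ω A alg μ hμ vs γ hR L hL τ β (by
    intro ω q hq
    rw [hβ]
    exact one2e rs pm1 pm2 pm3 core2 p hp2 n _ w Ω A alg d k r e (3 * k + e + 2) τ (by omega) hK1
      hCM (by rw [← hD']; exact h3) ω (before vs q) (vs q) (π q) (hsep q hq))
  have := last (Nat.cast_nonneg L) (Nat.cast_nonneg τ) hγ0 hβ2 hc0 h2 hav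
  rw [hc, hD'r] at this
  refine this.trans (le_of_eq ?_)
  ring

end Pool.Agent.Helper89K9.MA
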