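import Pool.Agent.Helper89K9.MA.One1
import Pool.Agent.Helper89K9.MA.Stm2

/-!
# Project MA: one vector, circuits of constant depth
-/

set_option autoImplicit false

namespace Pool.Agent.Helper89K9.MA

open Finset
open H568R2 (Ex wq)
open Pool.Agent.TH163.AC2 (Alg lenE rightE mavg)
open Pool.Agent.TH163.AC3 (HasDT)
open Pool.Agent.H699R2.OMV (Prog Vec Mat IsProb before)

open OneL

open Classical in
theorem one3 (pm1 : S_PM1) (pm2 : S_PM2) (pm4 : S_PM4) (core3 : S_CORE3) : S_ONE3 := by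
  intro n K w Ω A _ alg d k e s D0 m' τ q hq0 hq1 hs hD0 hτ hDM ω h v π hsep
  obtain ⟨f, hf⟩ := hDM ω h
  choose C hCs hCd hCe using hf
  obtain ⟨B, hB⟩ : ∃ B : ℝ, B = 1 / 2 ^ m' + n * (2 ^ D0 * (1 - q ^ d / 2) ^ K) +
        (Fintype.card A * w : ℕ) * (d * 2 ^ k * (12 * s * q) ^ (s + 1)) := ⟨_, rfl⟩
  rw [← hB]
  apply nRight_le pm2 alg ω h τ v π
  intro X
  obtain ⟨mm, hmm⟩ : ∃ mm : (Fin e → Bool) → (Fin n × Fin K → Bool) → A → Fin w → Bool,
    mm = fun y z a i => (C a i y).eval (bits h (pm π X z)) := ⟨_, rfl⟩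
  have hmem : ∀ z : Fin n × Fin K → Bool,
      alg.mem ω h (pm π X z) = mm (f (pm π X z)) z := by
    intro z
    rw [hmm]
    funext a i
    exact hCe a i (f (pm π X z)) (pm π X z) rfl
  have h1 : (univ.filter fun z : Fin n × Fin K → Bool =>
      alg.ans ω h (pm π X z) v = (pm π X z).mulVec v ∧
        (alg.adr ω h (pm π X z) v).length ≤ τ) ⊆
      (univ : Finset (Fin e → Bool)).biUnion (fun y => univ.filter fun z : Fin n × Fin K → Bool =>
        (alg.prog ω h (h.map X.mulVec) v).out (mm y z) = X.mulVec v + par z ∧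
        ((alg.prog ω h (h.map X.mulVec) v).addrs (mm y z)).length ≤ τ) := by
    intro z hz
    rw [Finset.mem_filter] at hz
    rw [Finset.mem_biUnion]
    refine ⟨f (pm π X z), Finset.mem_univ _, ?_⟩
    rw [Finset.mem_filter, ← hmem z]
    refine ⟨Finset.mem_univ _, ?_, ?_⟩
    · rw [← (pm1 n K π h v hsep X z).2, ← map_pm pm1 π h v hsep X z]
      exact hz.2.1
    · rw [← map_pm pm1 π h v hsep X z]
      exact hz.2.2
  have h2 := (Finset.card_le_card h1).trans Finset.card_biUnion_le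
  have h3 : ∀ y : Fin e → Bool, ((univ.filter fun z : Fin n × Fin K → Bool =>
        (alg.prog ω h (h.map X.mulVec) v).out (mm y z) = X.mulVec v + par z ∧
        ((alg.prog ω h (h.map X.mulVec) v).addrs (mm y z)).length ≤ τ).card : ℝ) ≤
        2 ^ (n * K) * B := by
    intro y
    rw [hB]
    have := core3 n K w A ((Fin n × Fin n) ⊕ (Fin h.length × Fin n))
      (fun j z => bits h (pm π X z) j) (fun j => pm4 n K π h v hsep X j) d k s D0 m' τ q hq0 hq1
      hs hD0 hτ (mm y) (fun a i => C a i y) (fun a i => ⟨hCs a i y, hCd a i y, fun z => by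
        rw [hmm]⟩) (alg.prog ω h (h.map X.mulVec) v) (X.mulVec v)
    refine le_trans (le_of_eq ?_) this
    congr 1
  calc ((univ.filter fun z : Fin n × Fin K → Bool =>
      alg.ans ω h (pm π X z) v = (pm π X z).mulVec v ∧
        (alg.adr ω h (pm π X z) v).length ≤ τ).card : ℝ) ≤ ∑ y : Fin e → Bool,
        ((univ.filter fun z : Fin n × Fin K → Bool =>
        (alg.prog ω h (h.map X.mulVec) v).out (mm y z) = X.mulVec v + par z ∧
        ((alg.prog ω h (h.map X.mulVec) v).addrs (mm y z)).length ≤ τ).card : ℝ) := by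
        exact_mod_cast h2
    _ ≤ ∑ _y : Fin e → Bool, 2 ^ (n * K) * B := Finset.sum_le_sum fun y _ => h3 y
    _ = 2 ^ (n * K) * (2 ^ e * B) := by
        rw [Finset.sum_const, Finset.card_univ, Fintype.card_fun, Fintype.card_bool,
          Fintype.card_fin, nsmul_eq_mul]
        push_cast
        ring

end Pool.Agent.Helper89K9.MA
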