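import Pool.Agent.Helper89K9.MA.Stm4
import Pool.Agent.Helper89K9.MA.One2
import Pool.Agent.Helper89K9.MA.Fin12

/-!
# Project MA, version 2: one vector
-/

set_option autoImplicit false

namespace Pool.Agent.Helper89K9.MA

open Finset
open H568R2 (Ex wq)
open H746R3.Inv (LD bK Circuit Kind)
open Pool.Agent.W905.TM (Acc S_RS)
open Pool.Agent.TH163.AC2 (Alg lenE rightE mavg)
open Pool.Agent.TH163.AC3 (HasDT)
open Pool.Agent.H699R2.OMV (Prog Vec Mat IsProb before)
open Pool.Agent.Helper89K9.MC (lam)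
open Pool.Agent.Helper89K9.MC.OneL (card_mat)

namespace OneL

/-- the program with other names of the answers -/
def mapO {A W O O' : Type} (f : O → O') : Prog A W O → Prog A W O'
  | .done o => .done (f o)
  | .probe a k => .probe a (fun x => mapO f (k x))

lemma mapO_out {A W O O' : Type} (f : O → O') (T : Prog A W O) (m : A → W) :
    (mapO f T).out m = f (T.out m) := by
  induction T with
  | done o => rfl
  | probe a k ih => exact ih (m a)

lemma mapO_addrs {A W O O' : Type} (f : O → O') (T : Prog A W O) (m : A → W) :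
    (mapO f T).addrs m = T.addrs m := by
  induction T with
  | done o => rfl
  | probe a k ih =>
    show a :: (mapO f (k (m a))).addrs m = a :: (k (m a)).addrs m
    rw [ih (m a)]

lemma comp_acc {I : Type} {p : ℕ} (C : Circuit I Unit) (x : I → Bool) [Decidable (Acc p C x)] :
    C.Computes p x (fun _ => decide (Acc p C x)) := by
  obtain ⟨v, hv, _⟩ := C.existsUnique_run p x
  have h1 : C.Computes p x (fun _ => C.wire x v (C.out ())) := ⟨v, hv, fun j => rfl⟩
  have h2 : decide (Acc p C x) = C.wire x v (C.out ()) := by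
    rw [Bool.eq_iff_iff, decide_eq_true_iff]
    exact acc_iff C x _ h1
  rw [h2]
  exact h1

open Classical in
/-- the reduction to `n` parities of `K` bits -/
lemma one_gen {n w K e : ℕ} {Ω A : Type} (pg1 : S_PG1) (pg2 : S_PG2) (alg : Alg n Ω A w) (ω : Ω)
    (h : List (Vec n)) (τ : ℕ) (v : Vec n) (π : Fin n → Option (Fin K)) (hsep : Sep π h v) (B : ℝ)
    (G : List (Vec n) → (Mat n)ˣ) (f : List (Vec n) → Mat n → Fin e → Bool)
    (hcore : ∀ X : Mat n, ∃ mm : (Fin e → Bool) → (Fin n × Fin K → Bool) → A → Fin w → Bool,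
      (∀ z, alg.mem ω h (pmg π h G X z) = mm (f (h.map X.mulVec) (pmg π h G X z)) z) ∧
      ∀ (y : Fin e → Bool) (T : Prog A (Fin w → Bool) (Vec n)) (u : Vec n),
        ((univ.filter fun z : Fin n × Fin K → Bool => T.out (mm y z) = u + par z ∧
          (T.addrs (mm y z)).length ≤ τ).card : ℝ) ≤ 2 ^ (n * K) * B) :
    (nRight alg ω h τ v : ℝ) ≤ 2 ^ (n * n) * (2 ^ e * B) := by
  have h1 : (nRight alg ω h τ v : ℝ) = ∑ M : Mat n,
      (if alg.ans ω h M v = M.mulVec v ∧ (alg.adr ω h M v).length ≤ τ then (1 : ℝ) else 0) := by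
    unfold nRight
    rw [Finset.card_filter]
    push_cast
    rfl
  have h2 := pg2 n K π h v hsep G (fun M : Mat n =>
    (if alg.ans ω h M v = M.mulVec v ∧ (alg.adr ω h M v).length ≤ τ then (1 : ℝ) else 0))
  rw [← h1] at h2
  have hB : ∀ X : Mat n, ((univ.filter fun z : Fin n × Fin K → Bool =>
      alg.ans ω h (pmg π h G X z) v = (pmg π h G X z).mulVec v ∧
        (alg.adr ω h (pmg π h G X z) v).length ≤ τ).card : ℝ) ≤ 2 ^ (n * K) * (2 ^ e * B) := by
    intro X
    obtain ⟨mm, hmem, hmm⟩ := hcore X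
    obtain ⟨G0, hG0⟩ : ∃ G0 : (Mat n)ˣ, G0 = G (h.map X.mulVec) := ⟨_, rfl⟩
    obtain ⟨T, hT⟩ : ∃ T : Prog A (Fin w → Bool) (Vec n),
      T = mapO (G0 : Mat n).mulVec (alg.prog ω h (h.map X.mulVec) v) := ⟨_, rfl⟩
    have hsub : (univ.filter fun z : Fin n × Fin K → Bool =>
        alg.ans ω h (pmg π h G X z) v = (pmg π h G X z).mulVec v ∧
          (alg.adr ω h (pmg π h G X z) v).length ≤ τ) ⊆
        (univ : Finset (Fin e → Bool)).biUnion (fun y => univ.filter fun z : Fin n × Fin K → Bool =>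
          T.out (mm y z) = (G0 : Mat n).mulVec (X.mulVec v) + par z ∧
          (T.addrs (mm y z)).length ≤ τ) := by
      intro z hz
      rw [Finset.mem_filter] at hz
      obtain ⟨ha, hb, -⟩ := pg1 n K π h v hsep G X z
      rw [← hG0] at hb
      rw [Finset.mem_biUnion]
      refine ⟨f (h.map X.mulVec) (pmg π h G X z), Finset.mem_univ _, ?_⟩
      rw [Finset.mem_filter, ← hmem z]
      refine ⟨Finset.mem_univ _, ?_, ?_⟩
      · rw [hT, mapO_out, ← ha, ← hb, ← hz.2.1]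
        rfl
      · rw [hT, mapO_addrs, ← ha]
        exact hz.2.2
    have hc := (Finset.card_le_card hsub).trans Finset.card_biUnion_le
    calc ((univ.filter fun z : Fin n × Fin K → Bool =>
        alg.ans ω h (pmg π h G X z) v = (pmg π h G X z).mulVec v ∧
          (alg.adr ω h (pmg π h G X z) v).length ≤ τ).card : ℝ) ≤ ∑ y : Fin e → Bool,
          ((univ.filter fun z : Fin n × Fin K → Bool =>
          T.out (mm y z) = (G0 : Mat n).mulVec (X.mulVec v) + par z ∧
          (T.addrs (mm y z)).length ≤ τ).card : ℝ) := by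
          exact_mod_cast hc
      _ ≤ ∑ _y : Fin e → Bool, 2 ^ (n * K) * B := Finset.sum_le_sum fun y _ => hmm y T _
      _ = 2 ^ (n * K) * (2 ^ e * B) := by
          rw [Finset.sum_const, Finset.card_univ, Fintype.card_fun, Fintype.card_bool,
            Fintype.card_fin, nsmul_eq_mul]
          push_cast
          ring
  have h3 : ∑ X : Mat n, ∑ z : Fin n × Fin K → Bool,
      (if alg.ans ω h (pmg π h G X z) v = (pmg π h G X z).mulVec v ∧
        (alg.adr ω h (pmg π h G X z) v).length ≤ τ then (1 : ℝ) else 0) ≤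
      ∑ _X : Mat n, 2 ^ (n * K) * (2 ^ e * B) := by
    apply Finset.sum_le_sum
    intro X _
    refine le_trans (le_of_eq ?_) (hB X)
    rw [Finset.card_filter]
    push_cast
    rfl
  rw [Finset.sum_const, Finset.card_univ, nsmul_eq_mul, card_mat] at h3
  have h4 : (2 : ℝ) ^ (n * K) * (nRight alg ω h τ v : ℝ) ≤
      2 ^ (n * K) * (2 ^ (n * n) * (2 ^ e * B)) := by
    rw [← h2]
    refine h3.trans (le_of_eq ?_)
    ring
  exact le_of_mul_le_mul_left h4 (by positivity)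

end OneL

open OneL

open Classical in
theorem one1v (pg1 : S_PG1) (pg2 : S_PG2) (pg3 : S_PG3) (vir : S_VIR) (core1 : S_CORE1)
    (p : ℕ) [hpf : Fact p.Prime] (hp2 : p ≠ 2) (n K w : ℕ) (Ω A : Type) (alg : Alg n Ω A w)
    (D s e τ : ℕ) (hPM : PolyMem2 p alg D s e) (ω : Ω) (h : List (Vec n)) (v : Vec n)
    (π : Fin n → Option (Fin K)) (hsep : Sep π h v) :
    (nRight alg ω h τ v : ℝ) ≤ 2 ^ (n * n) * (2 ^ e * (1 / 2 ^ (n / 8) +
      ((p : ℝ) ^ s) ^ τ * (1 - 1 / lam p D) ^ (n * K / 4))) := by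
  choose G f hP using fun ys => hPM ω h ys
  apply one_gen pg1 pg2 alg ω h τ v π hsep _ G f
  intro X
  obtain ⟨mm, hmm, hmP⟩ := vir p (Fin n × Fin K → Bool) A (Fin w → Bool) (Fin e → Bool)
    (LD (ZMod p) (Fin n × Fin K) D : Set ((Fin n × Fin K → Bool) → ZMod p)) s
    (fun z => alg.mem ω h (pmg π h G X z)) (fun z => f (h.map X.mulVec) (pmg π h G X z)) (by
      intro a y
      obtain ⟨P, hPd, hPm⟩ := hP (h.map X.mulVec) a y
      refine ⟨fun j z => MvPolynomial.eval (fun c => if mbits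
        (pm π ((G (h.map X.mulVec) : Mat n) * X) z) c then (1 : ZMod p) else 0) (P j),
        fun j => ?_, ?_⟩
      · exact ((pg3 n K π _).2 p).2 D (P j) (hPd j)
      · intro x x' hx hx' hj
        obtain ⟨ha, -, hc⟩ := pg1 n K π h v hsep G X x
        obtain ⟨ha', -, hc'⟩ := pg1 n K π h v hsep G X x'
        apply hPm _ _ ha ha' hx hx'
        intro j
        rw [hc, hc']
        exact hj j)
  refine ⟨mm, fun z => (hmm z).symm, ?_⟩
  intro y T u
  have := core1 p hp2 n K A (Fin w → Bool) D s τ (mm y) T u (hmP y)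
  refine le_trans (le_of_eq ?_) this
  congr 1

open Classical in
theorem one2v (rs : S_RS) (pg1 : S_PG1) (pg2 : S_PG2) (pg3 : S_PG3) (core2 : S_CORE2)
    (p : ℕ) [hpf : Fact p.Prime] (hp2 : p ≠ 2) (n K w : ℕ) (Ω A : Type) [Fintype A]
    (alg : Alg n Ω A w) (d k r e ℓ τ : ℕ) (hℓ : 1 ≤ ℓ) (hK : 1 ≤ K)
    (hCM : AC0pMem p alg d k r e)
    (hT : (512 * (τ * (w * (ℓ * p + r) ^ d))) ^ 2 ≤ n ^ 2 * K)
    (ω : Ω) (h : List (Vec n)) (v : Vec n) (π : Fin n → Option (Fin K)) (hsep : Sep π h v) :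
    (nRight alg ω h τ v : ℝ) ≤ 2 ^ (n * n) *
      (2 ^ e * (1 / 2 ^ (n / 24) + (Fintype.card A * w : ℕ) * 2 ^ k / (p : ℝ) ^ ℓ)) := by
  have hp : p.Prime := hpf.out
  choose G f hC using fun ys => hCM ω h ys
  apply one_gen pg1 pg2 alg ω h τ v π hsep _ G f
  intro X
  choose C hCG hCd hCw hCc using hC (h.map X.mulVec)
  obtain ⟨Y, hY⟩ : ∃ Y : Mat n, Y = (G (h.map X.mulVec) : Mat n) * X := ⟨_, rfl⟩
  -- the memory for each value of the side information
  obtain ⟨mm, hmm⟩ : ∃ mm : (Fin e → Bool) → (Fin n × Fin K → Bool) → A → Fin w → Bool,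
    mm = fun y z a i => decide (Acc p (C a i y) (mbits (pm π Y z))) := ⟨_, rfl⟩
  refine ⟨mm, fun z => ?_, ?_⟩
  · obtain ⟨ha, -, hc⟩ := pg1 n K π h v hsep G X z
    rw [hmm]
    funext a i
    symm
    rw [Bool.eq_iff_iff, decide_eq_true_iff, hY, ← hc]
    exact acc_iff (C a i _) _ _ (hCc a i _ (pmg π h G X z) ha rfl)
  intro y T u
  have hQ : ∀ (a : A) (i : Fin w),
      ∃ Q ∈ LD (ZMod p) (Fin n × Fin K) ((ℓ * p + r) ^ d),
      (univ.filter fun z : Fin n × Fin K → Bool =>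
        ¬ (Q z = bK (mm y z a i))).card * p ^ ℓ ≤ 2 ^ k * 2 ^ (n * K) := by
    intro a i
    obtain ⟨Q, hQ, hQc⟩ := rs p (C a i y) d r ℓ 1 hℓ le_rfl (hCd a i y) (hCw a i y)
      (fun c z => mbits (pm π Y z) c) (fun c => ((pg3 n K π Y).2 p).1 c)
    rw [one_mul] at hQ
    refine ⟨Q, hQ, ?_⟩
    rw [Fintype.card_prod, Fintype.card_fin, Fintype.card_fin] at hQc
    refine le_trans (le_of_eq ?_) (hQc.trans (Nat.mul_le_mul_right _ (hCG a i y)))
    congr 2
    apply Finset.filter_congr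
    intro z _
    rw [hmm]
  choose Q hQL hQc using hQ
  have h0 := core2 p hp2 n K w A ((ℓ * p + r) ^ d) τ hK hT (mm y) T u Q hQL
  obtain ⟨𝒢, h𝒢⟩ : ∃ 𝒢 : Finset (Fin n × Fin K → Bool), 𝒢 =
    univ.filter fun z : Fin n × Fin K → Bool => (∀ a i, Q a i z = bK (mm y z a i)) ∧
      T.out (mm y z) = u + par z ∧ (T.addrs (mm y z)).length ≤ τ := ⟨_, rfl⟩
  have h4 : (univ.filter fun z : Fin n × Fin K → Bool =>
      T.out (mm y z) = u + par z ∧ (T.addrs (mm y z)).length ≤ τ) ⊆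
      𝒢 ∪ (univ : Finset (A × Fin w)).biUnion (fun c =>
        univ.filter fun z : Fin n × Fin K → Bool =>
          ¬ (Q c.1 c.2 z = bK (mm y z c.1 c.2))) := by
    intro z hz
    rw [Finset.mem_filter] at hz
    rw [Finset.mem_union]
    by_cases hall : ∀ a i, Q a i z = bK (mm y z a i)
    · left
      rw [h𝒢, Finset.mem_filter]
      exact ⟨Finset.mem_univ _, hall, hz.2⟩
    · right
      push Not at hall
      obtain ⟨a, i, hai⟩ := hall
      rw [Finset.mem_biUnion]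
      refine ⟨(a, i), Finset.mem_univ _, ?_⟩
      rw [Finset.mem_filter]
      exact ⟨Finset.mem_univ _, hai⟩
  have h5 := (Finset.card_le_card h4).trans ((Finset.card_union_le _ _).trans
    (Nat.add_le_add_left Finset.card_biUnion_le _))
  have hp0 : (0 : ℝ) < (p : ℝ) ^ ℓ := by
    have : 0 < p := hp.pos
    positivity
  have h6 : ((univ.filter fun z : Fin n × Fin K → Bool =>
      T.out (mm y z) = u + par z ∧ (T.addrs (mm y z)).length ≤ τ).card : ℝ) ≤
      (𝒢.card : ℝ) + ∑ c : A × Fin w, ((univ.filter fun z : Fin n × Fin K → Bool =>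
          ¬ (Q c.1 c.2 z = bK (mm y z c.1 c.2))).card : ℝ) := by
    exact_mod_cast h5
  have h7 : (𝒢.card : ℝ) ≤ 2 ^ (n * K) * (1 / 2 ^ (n / 24)) := by
    have h00 : 𝒢.card * 2 ^ (n / 24) ≤ 2 ^ (n * K) := by
      rw [h𝒢]
      refine le_trans (le_of_eq ?_) h0
      congr 2
      ext z
      simp only [Finset.mem_filter]
    rw [mul_one_div, le_div_iff₀ (by positivity)]
    exact_mod_cast h00
  have h8 : ∀ c : A × Fin w, ((univ.filter fun z : Fin n × Fin K → Bool =>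
          ¬ (Q c.1 c.2 z = bK (mm y z c.1 c.2))).card : ℝ) ≤
          2 ^ k * 2 ^ (n * K) / (p : ℝ) ^ ℓ := by
    intro c
    rw [le_div_iff₀ hp0]
    exact_mod_cast hQc c.1 c.2
  have h9 : ∑ c : A × Fin w, ((univ.filter fun z : Fin n × Fin K → Bool =>
          ¬ (Q c.1 c.2 z = bK (mm y z c.1 c.2))).card : ℝ) ≤
          (Fintype.card A * w : ℕ) * (2 ^ k * 2 ^ (n * K) / (p : ℝ) ^ ℓ) := by
    refine (Finset.sum_le_sum fun c _ => h8 c).trans (le_of_eq ?_)
    rw [Finset.sum_const, Finset.card_univ, Fintype.card_prod, Fintype.card_fin, nsmul_eq_mul]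
  refine h6.trans ((add_le_add h7 h9).trans (le_of_eq ?_))
  ring

open Classical in
theorem one3v (pg1 : S_PG1) (pg2 : S_PG2) (pg3 : S_PG3) (co2 : S_CO2) (cr4 : S_CR4)
    (n K w : ℕ) (Ω A : Type) [Fintype A] (alg : Alg n Ω A w) (d k r e s D0 m' τ : ℕ) (q : ℝ)
    (hq0 : 0 ≤ q) (hq1 : q ≤ 1 / 3) (hr : 1 ≤ r) (hs : 1 ≤ s) (hD0 : 1 ≤ D0)
    (hτ : D0 * m' + τ * (w * s) ≤ n * D0) (hDM : AC0Mem alg d k r e)
    (ω : Ω) (h : List (Vec n)) (v : Vec n) (π : Fin n → Option (Fin K)) (hsep : Sep π h v) :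
    (nRight alg ω h τ v : ℝ) ≤ 2 ^ (n * n) * (2 ^ e *
      (1 / 2 ^ m' + n * (2 ^ D0 * (1 - q ^ d / 2) ^ K) +
        (Fintype.card A * w : ℕ) * (d * 2 ^ k * (12 * (r * s) * q) ^ (s + 1)))) := by
  choose G f hC using fun ys => hDM ω h ys
  apply one_gen pg1 pg2 alg ω h τ v π hsep _ G f
  intro X
  choose C hCG hCd hCm hCw hCc using hC (h.map X.mulVec)
  obtain ⟨Y, hY⟩ : ∃ Y : Mat n, Y = (G (h.map X.mulVec) : Mat n) * X := ⟨_, rfl⟩
  obtain ⟨mm, hmm⟩ : ∃ mm : (Fin e → Bool) → (Fin n × Fin K → Bool) → A → Fin w → Bool,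
    mm = fun y z a i => decide (Acc 2 (C a i y) (mbits (pm π Y z))) := ⟨_, rfl⟩
  refine ⟨mm, fun z => ?_, ?_⟩
  · obtain ⟨ha, -, hc⟩ := pg1 n K π h v hsep G X z
    rw [hmm]
    funext a i
    symm
    rw [Bool.eq_iff_iff, decide_eq_true_iff, hY, ← hc]
    exact acc_iff (C a i _) _ _ (hCc a i _ (pmg π h G X z) ha rfl)
  intro y T u
  have hp0 : 0 ≤ q ^ d := pow_nonneg hq0 d
  have hp1 : q ^ d ≤ 1 := pow_le_one₀ hq0 (by linarith)
  apply cr4 n K w A s D0 m' τ (q ^ d) (d * 2 ^ k * (12 * (r * s) * q) ^ (s + 1)) hp0 hp1 hD0 hτ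
    (mm y) _ T u
  intro a i
  have h1 := co2 (Fin n × Fin K) (Fin n × Fin n) (C a i y) (fun c z => mbits (pm π Y z) c)
    (fun c => (pg3 n K π Y).1 c) (hCm a i y) r hr (hCw a i y) q hq0 hq1 s d hs (hCd a i y)
    (fun z => mm y z a i) (by
      intro z
      rw [hmm]
      exact comp_acc (C a i y) _)
  refine h1.trans ?_
  apply mul_le_mul_of_nonneg_right _ (by positivity)
  apply mul_le_mul_of_nonneg_left _ (by positivity)
  exact_mod_cast hCG a i y

end Pool.Agent.Helper89K9.MA
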