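import Pool.Agent.Helper89K9.MC.Stm
import Pool.Agent.W905.TM.Circ

/-!
# Project MA: online matrix-vector multiplication with memory computed from the matrix and all
earlier answers

Statements of the leaves. `LD K V d` are the functions of degree at most `d` on the cube
(`Pool/Agent/H746R3/Inv/Deg.lean`), `Circuit` are the circuits of `Pool/Agent/H746R3/Inv/Circ.lean`.
-/

set_option autoImplicit false

namespace Pool.Agent.Helper89K9.MA

open Finset
open H746R3.Inv (LD bK Circuit Kind)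
open Pool.Agent.W905.TM (Acc)
open Pool.Agent.TH163.AC2 (Alg lenE rightE mavg)
open Pool.Agent.H699R2.OMV (Prog Vec Mat IsProb before)
open Pool.Agent.Helper89K9.MC (lam)

/-! ### the model -/

/-- The bits of the matrix `M` and of its products with the vectors in the list `h`. -/
def bits {n : ℕ} (h : List (Vec n)) (M : Mat n) :
    (Fin n × Fin n) ⊕ (Fin h.length × Fin n) → Bool :=
  Sum.elim (fun c => decide (M c.1 c.2 = 1)) (fun c => decide (M.mulVec (h.get c.1) c.2 = 1))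

/-- For given coins and earlier vectors there are `e` arbitrary bits `f M` of side information
about the matrix such that, for each value `y` of the side information and each cell, there are `s`
polynomials over the field with `p` elements, of degree at most `D`, in the bits of the matrix
and of all earlier answers, whose values determine the content of the cell, on all matrices with
this side information. -/
def PolyMem {n : ℕ} {Ω A : Type} {w : ℕ} (p : ℕ) (alg : Alg n Ω A w) (D s e : ℕ) : Prop :=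
  ∀ (ω : Ω) (h : List (Vec n)), ∃ f : Mat n → Fin e → Bool, ∀ (a : A) (y : Fin e → Bool),
    ∃ P : Fin s → MvPolynomial ((Fin n × Fin n) ⊕ (Fin h.length × Fin n)) (ZMod p),
      (∀ j, (P j).totalDegree ≤ D) ∧
      ∀ M M' : Mat n, f M = y → f M' = y →
        (∀ j, MvPolynomial.eval (fun c => if bits h M c then (1 : ZMod p) else 0) (P j) =
          MvPolynomial.eval (fun c => if bits h M' c then (1 : ZMod p) else 0) (P j)) →
        alg.mem ω h M a = alg.mem ω h M' a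

/-- For given coins and earlier vectors every bit of every cell is computed from the bits of the
matrix and of all earlier answers by a circuit with at most `2 ^ k` gates of depth at most `d`:
AND, OR, MOD-`p` (unbounded fan-in) and arbitrary gates of fan-in at most `r`. -/
def CircMem {n : ℕ} {Ω A : Type} {w : ℕ} (p : ℕ) (alg : Alg n Ω A w) (d k r : ℕ) : Prop :=
  ∀ (ω : Ω) (h : List (Vec n)) (a : A) (i : Fin w),
    ∃ C : Circuit ((Fin n × Fin n) ⊕ (Fin h.length × Fin n)) Unit,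
      C.G ≤ 2 ^ k ∧ C.DepthLE d ∧ (∀ g, (C.kind g).IsWild → (C.wires g).length ≤ r) ∧
      ∀ M : Mat n, C.Computes p (bits h M) (fun _ => alg.mem ω h M a i)

/-- On the stream `vs` and a uniformly random matrix, each single answer is right with probability
at least `γ`. -/
def RightOn {n : ℕ} {Ω A : Type} {w : ℕ} [Fintype Ω] (alg : Alg n Ω A w) (vs : Fin n → Vec n)
    (μ : Ω → ℝ) (γ : ℝ) : Prop :=
  ∀ q : Fin n, γ ≤ mavg (fun M =>
    ∑ ω, μ ω * (if alg.answer ω M vs q = M.mulVec (vs q) then (1 : ℝ) else 0))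

/-! ### classes of coordinates -/

/-- the sum of the coordinates of `v` in the class `k` of the partial map `π` -/
def clsum {n K : ℕ} (π : Fin n → Option (Fin K)) (v : Vec n) (k : Fin K) : ZMod 2 :=
  ∑ j ∈ univ.filter (fun j => π j = some k), v j

/-- The earlier vectors `h` have the sum `0` in each class, and `v` has the sum `1`. -/
def Sep {n K : ℕ} (π : Fin n → Option (Fin K)) (h : List (Vec n)) (v : Vec n) : Prop :=
  (∀ u ∈ h, ∀ k, clsum π u k = 0) ∧ ∀ k, clsum π v k = 1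

/-- the matrix `X` where `z (r, k)` is added to the entries of row `r` in the class `k` -/
def pm {n K : ℕ} (π : Fin n → Option (Fin K)) (X : Mat n) (z : Fin n × Fin K → Bool) : Mat n :=
  X + Matrix.of fun r j => (π j).elim 0 (fun k => if z (r, k) then 1 else 0)

/-- the parities of the rows of `z` -/
def par {n K : ℕ} (z : Fin n × Fin K → Bool) : Vec n := fun r => ∑ k, if z (r, k) then 1 else 0

/-! ### the design -/

/-- **PT.** Functions with zero sums on all lines. -/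
def S_PT : Prop :=
  ∀ (a t : ℕ), 1 ≤ a → 1 ≤ t →
    ∃ (f : (Fin t → Fin ((2 ^ a - 2) / t + 1)) → (Fin t → GaloisField 2 a) → ZMod 2)
      (j : (Fin t → Fin ((2 ^ a - 2) / t + 1)) → (Fin t → GaloisField 2 a)),
      (∀ (i : Fin t → Fin ((2 ^ a - 2) / t + 1)) (x u : Fin t → GaloisField 2 a) [Fintype (GaloisField 2 a)],
        ∑ c : GaloisField 2 a, f i (x + c • u) = 0) ∧
      (∀ i, f i (j i) = 1) ∧ ∀ i i', f i (j i') ≠ 0 → i ≤ i'

/-- **DES.** -/
def S_DES : Prop :=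
  ∀ (a t n : ℕ), 1 ≤ a → 1 ≤ t → (2 ^ a) ^ t ≤ n →
    ((2 ^ a - 2) / t + 1) ^ t ≤ n ∧
    ∃ (vs : Fin n → Vec n) (π : Fin n → Fin n → Option (Fin ((2 ^ a) ^ (t - 1)))),
      ∀ q : Fin n, q.val < ((2 ^ a - 2) / t + 1) ^ t → Sep (π q) (before vs q) (vs q)

/-! ### the restricted matrices -/

/-- **PM1.** The products with the vectors. -/
def S_PM1 : Prop :=
  ∀ (n K : ℕ) (π : Fin n → Option (Fin K)) (h : List (Vec n)) (v : Vec n), Sep π h v →
    ∀ (X : Mat n) (z : Fin n × Fin K → Bool),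
      (∀ u ∈ h, (pm π X z).mulVec u = X.mulVec u) ∧ (pm π X z).mulVec v = X.mulVec v + par z

/-- **PM2.** The average over the matrices. -/
def S_PM2 : Prop :=
  ∀ (n K : ℕ) (π : Fin n → Option (Fin K)) (F : Mat n → ℝ),
    ∑ X, ∑ z, F (pm π X z) = 2 ^ (n * K) * ∑ M, F M

/-- **PM3.** The inputs are functions of degree at most `1`. -/
def S_PM3 : Prop :=
  ∀ (n K : ℕ) (π : Fin n → Option (Fin K)) (h : List (Vec n)) (v : Vec n), Sep π h v →
    ∀ (p : ℕ) [Fact p.Prime] (X : Mat n),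
      (∀ c, (fun z => (bK (bits h (pm π X z) c) : ZMod p)) ∈ LD (ZMod p) (Fin n × Fin K) 1) ∧
      ∀ (D : ℕ) (P : MvPolynomial ((Fin n × Fin n) ⊕ (Fin h.length × Fin n)) (ZMod p)),
        P.totalDegree ≤ D →
        (fun z => MvPolynomial.eval (fun c => if bits h (pm π X z) c then (1 : ZMod p) else 0) P) ∈
          LD (ZMod p) (Fin n × Fin K) D

/-- **VIR.** The memory for each value of the side information. -/
def S_VIR : Prop :=
  ∀ (p : ℕ) (X A W Y : Type) [Nonempty X] (L : Set (X → ZMod p)) (s : ℕ) (m : X → A → W)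
    (f : X → Y),
    (∀ (a : A) (y : Y), ∃ P : Fin s → X → ZMod p, (∀ j, P j ∈ L) ∧
      ∀ x x', f x = y → f x' = y → (∀ j, P j x = P j x') → m x a = m x' a) →
    ∃ mm : Y → X → A → W, (∀ x, mm (f x) x = m x) ∧
      ∀ y a, ∃ P : Fin s → X → ZMod p, (∀ j, P j ∈ L) ∧
        ∀ x x', (∀ j, P j x = P j x') → mm y x a = mm y x' a

/-! ### polynomials modulo `p`: `n` parities of `K` bits -/

open Classical in
/-- **CORE1.** -/
def S_CORE1 : Prop :=
  ∀ (p : ℕ) [Fact p.Prime], p ≠ 2 → ∀ (n K : ℕ) (A W : Type) (D s τ : ℕ)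
    (m : (Fin n × Fin K → Bool) → A → W) (T : Prog A W (Vec n)) (u : Vec n),
    (∀ a, ∃ P : Fin s → (Fin n × Fin K → Bool) → ZMod p,
      (∀ j, P j ∈ LD (ZMod p) (Fin n × Fin K) D) ∧
      ∀ x x', (∀ j, P j x = P j x') → m x a = m x' a) →
    ((univ.filter fun z : Fin n × Fin K → Bool => T.out (m z) = u + par z ∧
      (T.addrs (m z)).length ≤ τ).card : ℝ) ≤
      2 ^ (n * K) * (1 / 2 ^ (n / 8) + ((p : ℝ) ^ s) ^ τ * (1 - 1 / lam p D) ^ (n * K / 4))

open Classical in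
/-- the number of matrices for which the answer is right and at most `τ` cells are probed -/
noncomputable def nRight {n w : ℕ} {Ω A : Type} (alg : Alg n Ω A w) (ω : Ω) (h : List (Vec n))
    (τ : ℕ) (v : Vec n) : ℕ :=
  (univ.filter fun M : Mat n => alg.ans ω h M v = M.mulVec v ∧
    (alg.adr ω h M v).length ≤ τ).card

/-- **ONE1.** -/
def S_ONE1 : Prop :=
  ∀ (p : ℕ) [Fact p.Prime], p ≠ 2 → ∀ (n K w : ℕ) (Ω A : Type) (alg : Alg n Ω A w) (D s e τ : ℕ),
    PolyMem p alg D s e → ∀ (ω : Ω) (h : List (Vec n)) (v : Vec n) (π : Fin n → Option (Fin K)),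
    Sep π h v → (nRight alg ω h τ v : ℝ) ≤ 2 ^ (n * n) *
      (2 ^ e * (1 / 2 ^ (n / 8) + ((p : ℝ) ^ s) ^ τ * (1 - 1 / lam p D) ^ (n * K / 4)))

/-! ### circuits: `n` parities of `K` bits -/

/-- the parity character of the set `U` of coordinates, with values in `F` -/
def chK {F V : Type} [Field F] (U : Finset V) (x : V → Bool) : F :=
  ∏ i ∈ U, if x i then -1 else 1

/-- **TP.** A program with at most `τ` probes is a polynomial. -/
def S_TP : Prop :=
  ∀ (F V A O : Type) [Field F] [Fintype V] [DecidableEq V] (w D τ : ℕ)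
    (m : (V → Bool) → A → Fin w → Bool) (P : A → Fin w → (V → Bool) → F),
    (∀ a i, P a i ∈ LD F V D) → ∀ (g : O → F) (T : Prog A (Fin w → Bool) O),
    ∃ Q ∈ LD F V (τ * (w * D)), ∀ x, (∀ a i, P a i x = bK (m x a i)) →
      Q x = if (T.addrs (m x)).length ≤ τ then g (T.out (m x)) else 0

/-- **SPAN.** (Smolensky's dimension argument for `n` rows.) -/
def S_SPAN : Prop :=
  ∀ (p : ℕ) [Fact p.Prime], p ≠ 2 → ∀ (n K T : ℕ) (𝒢 : Finset (Fin n × Fin K → Bool)),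
    (∀ S : Finset (Fin n), ∃ Q ∈ LD (ZMod p) (Fin n × Fin K) T, ∀ x ∈ 𝒢,
      Q x = ∏ r ∈ S, chK (univ.filter fun c : Fin n × Fin K => c.1 = r) x) →
    𝒢.card ≤ (univ.filter fun W : Finset (Fin n × Fin K) =>
      ∑ r, (2 * (W.filter fun c => c.1 = r).card - K) ≤ T).card

/-- **CNT.** -/
def S_CNT : Prop :=
  ∀ (n K T : ℕ), 1 ≤ K → (512 * T) ^ 2 ≤ n ^ 2 * K →
    (univ.filter fun W : Finset (Fin n × Fin K) =>
      ∑ r, (2 * (W.filter fun c => c.1 = r).card - K) ≤ T).card * 2 ^ (n / 24) ≤ 2 ^ (n * K)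

/-- **PZ.** The probability that a sum of `m` signs is at least `√m / 2` is at least `3 / 32`. -/
def S_PZ : Prop :=
  ∀ m : ℕ, 1 ≤ m → 3 * 2 ^ m ≤ 32 * (univ.filter fun S : Finset (Fin m) =>
    m ≤ 2 * S.card ∧ m ≤ 4 * (2 * S.card - m) ^ 2).card

open Classical in
/-- **CORE2.** -/
def S_CORE2 : Prop :=
  ∀ (p : ℕ) [Fact p.Prime], p ≠ 2 → ∀ (n K w : ℕ) (A : Type) (D τ : ℕ), 1 ≤ K →
    (512 * (τ * (w * D))) ^ 2 ≤ n ^ 2 * K →
    ∀ (m : (Fin n × Fin K → Bool) → A → Fin w → Bool) (T : Prog A (Fin w → Bool) (Vec n))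
      (u : Vec n) (P : A → Fin w → (Fin n × Fin K → Bool) → ZMod p),
      (∀ a i, P a i ∈ LD (ZMod p) (Fin n × Fin K) D) →
    (univ.filter fun z : Fin n × Fin K → Bool => (∀ a i, P a i z = bK (m z a i)) ∧
      T.out (m z) = u + par z ∧ (T.addrs (m z)).length ≤ τ).card * 2 ^ (n / 24) ≤ 2 ^ (n * K)

/-- **ONE2.** -/
def S_ONE2 : Prop :=
  ∀ (p : ℕ) [Fact p.Prime], p ≠ 2 → ∀ (n K w : ℕ) (Ω A : Type) [Fintype A] (alg : Alg n Ω A w)
    (d k r ℓ τ : ℕ), 1 ≤ ℓ → 1 ≤ K → CircMem p alg d k r →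
    (512 * (τ * (w * (ℓ * p + r) ^ d))) ^ 2 ≤ n ^ 2 * K →
    ∀ (ω : Ω) (h : List (Vec n)) (v : Vec n) (π : Fin n → Option (Fin K)), Sep π h v →
    (nRight alg ω h τ v : ℝ) ≤ 2 ^ (n * n) *
      (1 / 2 ^ (n / 24) + (Fintype.card A * w : ℕ) * 2 ^ k / (p : ℝ) ^ ℓ)

/-! ### the theorem -/

/-- **AVG.** -/
def S_AVG : Prop :=
  ∀ (n w : ℕ) (Ω A : Type) [Fintype Ω] (alg : Alg n Ω A w) (μ : Ω → ℝ), IsProb μ →
    ∀ (vs : Fin n → Vec n) (γ : ℝ), RightOn alg vs μ γ → ∀ Q : ℕ, Q ≤ n → ∀ (τ : ℕ) (β : ℝ),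
    (∀ (ω : Ω) (q : Fin n), q.val < Q →
      (nRight alg ω (before vs q) τ (vs q) : ℝ) ≤ 2 ^ (n * n) * β) →
    Q * ((τ + 1 : ℝ) * (γ - β)) ≤
      mavg (fun M => ∑ ω, μ ω * ∑ q, ((alg.probes ω M vs q).length : ℝ))

/-- **NUM1.** -/
def S_NUM1 : Prop :=
  ∀ (n K p D s e τ : ℕ), 256 ≤ n → 3 ≤ p → lam p D ≤ K → 32 * e ≤ n →
    8 * lam p D * (s * Real.logb 2 p * τ) ≤ (n * K : ℝ) →
    2 ^ e * (1 / 2 ^ (n / 8) + ((p : ℝ) ^ s) ^ τ * (1 - 1 / lam p D) ^ (n * K / 4)) ≤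
      (1 / 2 ^ (n / 16) : ℝ) / 2

/-- **FIN.** -/
def S_FIN : Prop :=
  ∀ (n a t : ℕ), 1 ≤ a → 1 ≤ t → (2 ^ a) ^ t ≤ n → 256 ≤ n → ∃ vs : Fin n → Vec n,
    ∀ (p : ℕ) [Fact p.Prime], p ≠ 2 → ∀ (Ω A : Type) [Fintype Ω] (w : ℕ) (alg : Alg n Ω A w)
    (μ : Ω → ℝ), IsProb μ → ∀ γ : ℝ, RightOn alg vs μ γ →
    (∀ D s e : ℕ, 1 ≤ s → lam p D ≤ (2 ^ a) ^ (t - 1) → 32 * e ≤ n → 1 / 2 ^ (n / 16) ≤ γ →
      PolyMem p alg D s e →
      γ * (((2 ^ a - 2) / t + 1 : ℕ) ^ t * (n * (2 ^ a) ^ (t - 1))) ≤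
        16 * lam p D * (s * Real.logb 2 p) *
          mavg (fun M => ∑ ω, μ ω * ∑ q, ((alg.probes ω M vs q).length : ℝ))) ∧
    (∀ [Fintype A] (d k r : ℕ), 1 ≤ w → 24 * (k + 3) ≤ n → 1 / 2 ^ k ≤ γ →
      Fintype.card A * w ≤ 2 ^ k → CircMem p alg d k r →
      γ * (((2 ^ a - 2) / t + 1 : ℕ) ^ t * (n * Real.sqrt ((2 ^ a) ^ (t - 1)))) ≤
        2 ^ 10 * ((3 * k + 2 : ℝ) * p + r) ^ d *
          (w * mavg (fun M => ∑ ω, μ ω * ∑ q, ((alg.probes ω M vs q).length : ℝ))))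

/-- **RP.** The choice of `a`. -/
def S_RP : Prop :=
  ∀ n t : ℕ, 1 ≤ t → 2 ^ t ≤ n → ∃ a : ℕ, 1 ≤ a ∧ (2 ^ a) ^ t ≤ n ∧
    (n : ℝ) ^ (3 - 1 / (t : ℝ)) ≤
      (8 * t : ℝ) ^ t / 2 * (((2 ^ a - 2) / t + 1 : ℕ) ^ t * (n * (2 ^ a) ^ (t - 1))) ∧
    (n : ℝ) ^ (5 / 2 - 1 / (2 * t : ℝ)) ≤
      (8 * t : ℝ) ^ t * (((2 ^ a - 2) / t + 1 : ℕ) ^ t * (n * Real.sqrt ((2 ^ a) ^ (t - 1)))) ∧
    (2 ≤ t → ∀ x : ℝ, 1 ≤ x → (2 ^ t * x) ^ 2 ≤ n → x ≤ (2 ^ a) ^ (t - 1))

end Pool.Agent.Helper89K9.MA
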