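import Pool.Agent.Helper89K9.MA.Stm
import Pool.Agent.TH163.AC3.Col

/-!
# Project MA, version 2: the memory depends ARBITRARILY on all earlier answers, and by polynomials
or circuits of small depth on the bits of `G * M`

Statements of the leaves.
-/

set_option autoImplicit false

namespace Pool.Agent.Helper89K9.MA

open Finset
open H568R2 (Ex wq)
open H746R3.Inv (LD bK Circuit Kind)
open Pool.Agent.TH163.AC2 (Alg lenE rightE mavg)
open Pool.Agent.TH163.AC3 (HasDT)
open Pool.Agent.H699R2.OMV (Prog Vec Mat IsProb before)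

/-- The bits of the matrix `M`. -/
def mbits {n : ℕ} (M : Mat n) : Fin n × Fin n → Bool := fun c => decide (M c.1 c.2 = 1)

/-- For given coins, earlier vectors `h` and earlier answers `ys` there are an invertible matrix `G`
and `e` arbitrary bits `f M` of side information about the matrix such that, for each value `y` of
the side information and each cell, there are `s` polynomials over the field with `p` elements,
of degree at most `D`, in the bits of `G * M`, whose values determine the content of the cell, on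
all matrices with these answers and this side information. -/
def PolyMem2 {n : ℕ} {Ω A : Type} {w : ℕ} (p : ℕ) (alg : Alg n Ω A w) (D s e : ℕ) : Prop :=
  ∀ (ω : Ω) (h ys : List (Vec n)), ∃ (G : (Mat n)ˣ) (f : Mat n → Fin e → Bool),
    ∀ (a : A) (y : Fin e → Bool), ∃ P : Fin s → MvPolynomial (Fin n × Fin n) (ZMod p),
      (∀ j, (P j).totalDegree ≤ D) ∧
      ∀ M M' : Mat n, h.map M.mulVec = ys → h.map M'.mulVec = ys → f M = y → f M' = y →
        (∀ j, MvPolynomial.eval (fun c => if mbits ((G : Mat n) * M) c then (1 : ZMod p) else 0)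
            (P j) =
          MvPolynomial.eval (fun c => if mbits ((G : Mat n) * M') c then (1 : ZMod p) else 0)
            (P j)) →
        alg.mem ω h M a = alg.mem ω h M' a

/-- For given coins, earlier vectors `h` and earlier answers `ys` there are an invertible matrix `G`
and `e` arbitrary bits `f M` of side information about the matrix such that, for each value `y` of
the side information, every bit of every cell is computed from the bits of `G * M` by a circuit with
at most `2 ^ k` gates of depth at most `d`, on all matrices with these answers and this side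
information. The circuit consists of gates AND, OR (unbounded fan-in, wires may be negated) and
arbitrary gates of fan-in at most `r`. -/
def AC0Mem {n : ℕ} {Ω A : Type} {w : ℕ} (alg : Alg n Ω A w) (d k r e : ℕ) : Prop :=
  ∀ (ω : Ω) (h ys : List (Vec n)), ∃ (G : (Mat n)ˣ) (f : Mat n → Fin e → Bool),
    ∀ (a : A) (i : Fin w) (y : Fin e → Bool), ∃ C : Circuit (Fin n × Fin n) Unit,
      C.G ≤ 2 ^ k ∧ C.DepthLE d ∧ (∀ g, C.kind g ≠ Kind.mod) ∧
      (∀ g, (C.kind g).IsWild → (C.wires g).length ≤ r) ∧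
      ∀ M : Mat n, h.map M.mulVec = ys → f M = y →
        C.Computes 2 (mbits ((G : Mat n) * M)) (fun _ => alg.mem ω h M a i)

/-- The same for circuits which may also contain MOD-`p` gates of unbounded fan-in. -/
def AC0pMem {n : ℕ} {Ω A : Type} {w : ℕ} (p : ℕ) (alg : Alg n Ω A w) (d k r e : ℕ) : Prop :=
  ∀ (ω : Ω) (h ys : List (Vec n)), ∃ (G : (Mat n)ˣ) (f : Mat n → Fin e → Bool),
    ∀ (a : A) (i : Fin w) (y : Fin e → Bool), ∃ C : Circuit (Fin n × Fin n) Unit,
      C.G ≤ 2 ^ k ∧ C.DepthLE d ∧ (∀ g, (C.kind g).IsWild → (C.wires g).length ≤ r) ∧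
      ∀ M : Mat n, h.map M.mulVec = ys → f M = y →
        C.Computes p (mbits ((G : Mat n) * M)) (fun _ => alg.mem ω h M a i)

/-- the matrix whose entries of row `r` in the class `k` are `z (r, k)` -/
def zm {n K : ℕ} (π : Fin n → Option (Fin K)) (z : Fin n × Fin K → Bool) : Mat n :=
  Matrix.of fun r j => (π j).elim 0 (fun k => if z (r, k) then 1 else 0)

/-- `X` plus `G⁻¹ * zm π z`, where `G` may depend on the products of `X` with the vectors in `h` -/
def pmg {n K : ℕ} (π : Fin n → Option (Fin K)) (h : List (Vec n)) (G : List (Vec n) → (Mat n)ˣ)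
    (X : Mat n) (z : Fin n × Fin K → Bool) : Mat n :=
  X + (↑(G (h.map X.mulVec))⁻¹ : Mat n) * zm π z

/-- **PG1.** -/
def S_PG1 : Prop :=
  ∀ (n K : ℕ) (π : Fin n → Option (Fin K)) (h : List (Vec n)) (v : Vec n), Sep π h v →
    ∀ (G : List (Vec n) → (Mat n)ˣ) (X : Mat n) (z : Fin n × Fin K → Bool),
      h.map (pmg π h G X z).mulVec = h.map X.mulVec ∧
      (G (h.map X.mulVec) : Mat n).mulVec ((pmg π h G X z).mulVec v) =
        (G (h.map X.mulVec) : Mat n).mulVec (X.mulVec v) + par z ∧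
      (G (h.map X.mulVec) : Mat n) * pmg π h G X z = pm π ((G (h.map X.mulVec) : Mat n) * X) z

/-- **PG2.** -/
def S_PG2 : Prop :=
  ∀ (n K : ℕ) (π : Fin n → Option (Fin K)) (h : List (Vec n)) (v : Vec n), Sep π h v →
    ∀ (G : List (Vec n) → (Mat n)ˣ) (F : Mat n → ℝ),
      ∑ X, ∑ z, F (pmg π h G X z) = 2 ^ (n * K) * ∑ M, F M

/-- **PG3.** -/
def S_PG3 : Prop :=
  ∀ (n K : ℕ) (π : Fin n → Option (Fin K)) (X : Mat n),
    (∀ c, HasDT 1 (fun z : Fin n × Fin K → Bool => mbits (pm π X z) c)) ∧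
    ∀ (p : ℕ) [Fact p.Prime],
      (∀ c, (fun z => (bK (mbits (pm π X z) c) : ZMod p)) ∈ LD (ZMod p) (Fin n × Fin K) 1) ∧
      ∀ (D : ℕ) (P : MvPolynomial (Fin n × Fin n) (ZMod p)), P.totalDegree ≤ D →
        (fun z => MvPolynomial.eval (fun c => if mbits (pm π X z) c then (1 : ZMod p) else 0) P) ∈
          LD (ZMod p) (Fin n × Fin K) D

open Classical in
/-- **CO2.** (`Helper26K9.MA.col` for circuits which may contain arbitrary gates of fan-in at
most `r`: below such a gate everything has decision trees of depth `r * s`.) -/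
def S_CO2 : Prop :=
  ∀ (V J : Type) [Fintype V] [DecidableEq V] (C : Circuit J Unit) (inp : J → (V → Bool) → Bool),
    (∀ j, HasDT 1 (inp j)) → (∀ g, C.kind g ≠ Kind.mod) → ∀ r : ℕ, 1 ≤ r →
    (∀ g, (C.kind g).IsWild → (C.wires g).length ≤ r) →
    ∀ q : ℝ, 0 ≤ q → q ≤ 1 / 3 → ∀ s d : ℕ, 1 ≤ s → C.DepthLE d → ∀ m : (V → Bool) → Bool,
    (∀ z, C.Computes 2 (fun j => inp j z) (fun _ => m z)) →
    Ex (wq (q ^ d)) (fun ρ : H568R2.Restr V => if ¬ HasDT s (H568R2.rs m ρ) then (1 : ℝ) else 0) ≤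
      d * C.G * (12 * (r * s) * q) ^ (s + 1)

open Classical in
/-- **CR4.** (`Helper36K9.MA.core3` with the conclusion of COL as hypothesis.) -/
def S_CR4 : Prop :=
  ∀ (n K w : ℕ) (A : Type) [Fintype A] (s D0 m' τ : ℕ) (p ε : ℝ), 0 ≤ p → p ≤ 1 → 1 ≤ D0 →
    D0 * m' + τ * (w * s) ≤ n * D0 →
    ∀ (m : (Fin n × Fin K → Bool) → A → Fin w → Bool),
    (∀ a i, Ex (wq p) (fun ρ : H568R2.Restr (Fin n × Fin K) =>
      if ¬ HasDT s (H568R2.rs (fun z => m z a i) ρ) then (1 : ℝ) else 0) ≤ ε) →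
    ∀ (T : Prog A (Fin w → Bool) (Vec n)) (u : Vec n),
    ((univ.filter fun z : Fin n × Fin K → Bool => T.out (m z) = u + par z ∧
      (T.addrs (m z)).length ≤ τ).card : ℝ) ≤ 2 ^ (n * K) *
        (1 / 2 ^ m' + n * (2 ^ D0 * (1 - p / 2) ^ K) + (Fintype.card A * w : ℕ) * ε)

/-- **NM4.** (`Helper46K9.MA.num3` with `r`.) -/
def S_NM4 : Prop :=
  ∀ (n K w N d k e r s : ℕ), s = e + 3 * k + d + 2 → 1 ≤ r → n ≤ 2 ^ k → N ≤ 2 ^ k → 1 ≤ w →
    (24 * (r * s)) ^ (d + 1) ≤ K → K ≤ n →
    ∃ D0 m' τ : ℕ, 1 ≤ D0 ∧ D0 * m' + τ * (w * s) ≤ n * D0 ∧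
      2 ^ e * (1 / 2 ^ m' + n * (2 ^ D0 * (1 - (1 / (24 * (r * s) : ℝ)) ^ d / 2) ^ K) +
        N * (d * 2 ^ k * (12 * (r * s) * (1 / (24 * (r * s) : ℝ))) ^ (s + 1))) ≤
        (1 / 2 ^ k : ℝ) / 2 ∧
      (n * K : ℝ) ≤ (24 * (r * s) : ℝ) ^ (d + 1) * w * (τ + 1)

end Pool.Agent.Helper89K9.MA
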